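import Mathlib

set_option autoImplicit false

namespace Pool.Agent.Lib.MP_dbb207_co

/-- Index set of the ambient space: the summand `(p, q)` is shared by the types `p` and `q`. -/
abbrev Idx := Fin 4 × Fin 4 × ℕ

/-- The ambient space. -/
abbrev W := Idx →₀ ℚ

/-- The subspace attached to a set of types. -/
def amb (S : Finset (Fin 4)) : Submodule ℚ W :=
  Finsupp.supported ℚ ℚ {i : Idx | i.1 ∈ S ∨ i.2.1 ∈ S}

/-- Vectors whose third index is bounded. -/
def low (m : ℕ) : Submodule ℚ W :=
  Finsupp.supported ℚ ℚ {i : Idx | i.2.2 < m}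

theorem mem_amb {S : Finset (Fin 4)} {w : W} :
    w ∈ amb S ↔ ∀ i : Idx, ¬ (i.1 ∈ S ∨ i.2.1 ∈ S) → w i = 0 := by
  unfold amb
  rw [Finsupp.mem_supported']
  rfl

theorem mem_low {m : ℕ} {w : W} :
    w ∈ low m ↔ ∀ i : Idx, ¬ (i.2.2 < m) → w i = 0 := by
  unfold low
  rw [Finsupp.mem_supported']
  rfl

theorem amb_mono {S T : Finset (Fin 4)} (h : S ⊆ T) : amb S ≤ amb T := by
  intro w hw
  rw [mem_amb] at hw ⊢
  intro i hi
  exact hw i (fun hc => hi (hc.imp (fun h1 => h h1) (fun h1 => h h1)))

theorem low_mono {m n : ℕ} (h : m ≤ n) : low m ≤ low n := by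
  intro w hw
  rw [mem_low] at hw ⊢
  intro i hi
  exact hw i (fun hc => hi (lt_of_lt_of_le hc h))

theorem exists_low (w : W) : ∃ m, w ∈ low m := by
  refine ⟨w.support.sup (fun i => i.2.2) + 1, ?_⟩
  rw [mem_low]
  intro i hi
  by_contra hne
  apply hi
  have : i ∈ w.support := Finsupp.mem_support_iff.mpr hne
  exact Nat.lt_succ_of_le (Finset.le_sup (f := fun i : Idx => i.2.2) this)

theorem amb_univ (w : W) : w ∈ amb Finset.univ := by
  rw [mem_amb]
  intro i hi
  exact absurd (Or.inl (Finset.mem_univ _)) hi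

theorem amb_eq_iSup (S : Finset (Fin 4)) : amb S = ⨆ t ∈ S, amb {t} := by
  apply le_antisymm
  · have h1 : ∀ t ∈ S, amb {t} = Finsupp.supported ℚ ℚ {i : Idx | i.1 = t ∨ i.2.1 = t} := by
      intro t _
      unfold amb
      congr 1
      ext i
      simp
    have h2 : (⨆ t ∈ S, amb {t}) = ⨆ t ∈ S, Finsupp.supported ℚ ℚ {i : Idx | i.1 = t ∨ i.2.1 = t} := by
      apply iSup_congr
      intro t
      apply iSup_congr
      intro ht
      exact h1 t ht
    rw [h2]
    unfold amb
    have h3 : {i : Idx | i.1 ∈ S ∨ i.2.1 ∈ S} = ⋃ t ∈ S, {i : Idx | i.1 = t ∨ i.2.1 = t} := by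
      ext i
      simp only [Set.mem_ofPred_eq, Set.mem_iUnion]
      constructor
      · rintro (h | h)
        · exact ⟨_, h, Or.inl rfl⟩
        · exact ⟨_, h, Or.inr rfl⟩
      · rintro ⟨t, ht, h | h⟩
        · left; rw [h]; exact ht
        · right; rw [h]; exact ht
    rw [h3, Finsupp.supported_iUnion]
    apply iSup_mono
    intro t
    by_cases ht : t ∈ S
    · simp [ht]
    · simp [ht, Finsupp.supported_empty]
  · apply iSup_le
    intro t
    apply iSup_le
    intro ht
    exact amb_mono (by simpa using ht)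

section

set_option linter.unusedSectionVars false

variable {E : Type} [Fintype E] [DecidableEq E] (ty : E → Fin 4) (h : Finset (Fin 4) → ℕ)

/-- Number of elements of `N` whose type lies in `S`. -/
def cnt (N : Finset E) (S : Finset (Fin 4)) : ℕ := (N.filter (fun e => ty e ∈ S)).card

/-- `N` is independent over the flat spanned by all elements with type in `T`. -/
def IndepOver (T : Finset (Fin 4)) (N : Finset E) : Prop :=
  ∀ R : Finset (Fin 4), cnt ty N R + h T ≤ h (R ∪ T)

/-- The invariant. -/
def Good (X : E → Submodule ℚ W) : Prop :=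
  ∀ (T : Finset (Fin 4)) (N : Finset E), IndepOver ty h T N → ∀ x : E → W,
    (∀ e ∈ N, x e ∈ X e) → (∑ e ∈ N, x e) ∈ amb T → ∀ e ∈ N, x e = 0

variable {ty h}

theorem IndepOver.not_mem {T : Finset (Fin 4)} {N : Finset E} (hI : IndepOver ty h T N)
    {e : E} (he : e ∈ N) : ty e ∉ T := by
  intro ht
  have h1 := hI T
  rw [Finset.union_self] at h1
  have h2 : 0 < cnt ty N T := Finset.card_pos.mpr ⟨e, Finset.mem_filter.mpr ⟨he, ht⟩⟩
  omega

theorem key
    (hstrict : ∀ S T : Finset (Fin 4), ¬ S ⊆ T → ¬ T ⊆ S → h (S ∪ T) + h (S ∩ T) < h S + h T)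
    {X : E → Submodule ℚ W} (hX1 : ∀ e, X e ≤ amb {ty e}) (hG : Good ty h X)
    {N : Finset E} (hN : ∀ S, cnt ty N S ≤ h S)
    {S : Finset (Fin 4)} (hS : cnt ty N S = h S) {wS : W} (hwS : wS ∈ amb S)
    {T : Finset (Fin 4)} {N' : Finset E} (hI : IndepOver ty h T N')
    (hcase : ∀ n ∈ N, ty n ∈ S → n ∉ N' → ty n ∈ T)
    {n0 : E} (hn0S : ty n0 ∈ S) (hn0' : n0 ∈ N')
    {x1 : E → W} (hx1 : ∀ e ∈ N', x1 e ∈ X e) (hsum : wS - ∑ e ∈ N', x1 e ∈ amb T) :
    T ⊂ S ∧ cnt ty N T = h T ∧
      ∃ x2 : E → W, (∀ e ∈ N, x2 e ∈ X e) ∧ wS - ∑ e ∈ N, x2 e ∈ amb T := by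
  classical
  -- the sets
  set NS := N.filter (fun e => ty e ∈ S) with hNS
  set D := NS.filter (fun e => e ∈ N') with hD
  have hcardNS : NS.card = h S := hS
  have hDsub : D ⊆ N'.filter (fun e => ty e ∈ S) := by
    intro e he
    rw [hD, Finset.mem_filter, hNS, Finset.mem_filter] at he
    exact Finset.mem_filter.mpr ⟨he.2, he.1.2⟩
  have hDcard : D.card ≤ cnt ty N' S := Finset.card_le_card hDsub
  have hIS := hI S
  have hsplit : NS.card = D.card + (NS.filter (fun e => ¬ e ∈ N')).card := by
    rw [hD]; exact (Finset.card_filter_add_card_filter_not _).symm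
  have hrest : NS.filter (fun e => ¬ e ∈ N') ⊆ N.filter (fun e => ty e ∈ S ∩ T) := by
    intro e he
    rw [Finset.mem_filter, hNS, Finset.mem_filter] at he
    exact Finset.mem_filter.mpr ⟨he.1.1, Finset.mem_inter.mpr ⟨he.1.2, hcase e he.1.1 he.1.2 he.2⟩⟩
  have hrestcard : (NS.filter (fun e => ¬ e ∈ N')).card ≤ cnt ty N (S ∩ T) :=
    Finset.card_le_card hrest
  have hcntI := hN (S ∩ T)
  have hnST : ¬ S ⊆ T := fun hc => hI.not_mem hn0' (hc hn0S)
  have hTS : T ⊆ S := by
    by_contra hc
    have := hstrict S T hnST hc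
    omega
  have hssub : T ⊂ S := ⟨hTS, hnST⟩
  rw [Finset.inter_eq_right.mpr hTS] at hcntI hrestcard
  rw [Finset.union_eq_left.mpr hTS] at hIS
  have hcntT : cnt ty N T = h T := by omega
  have hDeq' : D.card = cnt ty N' S := by omega
  have hDval : D.card + h T = h S := by omega
  have hDeq : D = N'.filter (fun e => ty e ∈ S) :=
    Finset.eq_of_subset_of_card_le hDsub (le_of_eq hDeq'.symm)
  refine ⟨hssub, hcntT, ?_⟩
  -- the remaining elements of N'
  set N3 := N'.filter (fun e => ¬ ty e ∈ S) with hN3
  have hI3 : IndepOver ty h S N3 := by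
    intro R
    have h1 := hI (R ∪ S)
    have h2 : cnt ty N3 R + D.card ≤ cnt ty N' (R ∪ S) := by
      unfold cnt
      rw [← Finset.card_union_of_disjoint]
      · apply Finset.card_le_card
        intro e he
        rw [Finset.mem_union] at he
        rcases he with he | he
        · rw [Finset.mem_filter, hN3, Finset.mem_filter] at he
          exact Finset.mem_filter.mpr ⟨he.1.1, Finset.mem_union_left _ he.2⟩
        · rw [hDeq, Finset.mem_filter] at he
          exact Finset.mem_filter.mpr ⟨he.1, Finset.mem_union_right _ he.2⟩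
      · rw [Finset.disjoint_left]
        intro e he1 he2
        rw [Finset.mem_filter, hN3, Finset.mem_filter] at he1
        rw [hDeq, Finset.mem_filter] at he2
        exact he1.1.2 he2.2
    have h3 : R ∪ S ∪ T = R ∪ S := by
      rw [Finset.union_assoc, Finset.union_eq_left.mpr hTS]
    rw [h3] at h1
    omega
  have hsumsplit : ∑ e ∈ N', x1 e = ∑ e ∈ D, x1 e + ∑ e ∈ N3, x1 e := by
    rw [hDeq, hN3]
    exact (Finset.sum_filter_add_sum_filter_not N' _ _).symm
  have hDamb : ∑ e ∈ D, x1 e ∈ amb S := by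
    apply Submodule.sum_mem
    intro e he
    rw [hDeq, Finset.mem_filter] at he
    have h1 := hX1 e (hx1 e he.1)
    exact amb_mono (by simpa using he.2) h1
  have hN3amb : ∑ e ∈ N3, x1 e ∈ amb S := by
    have h1 : ∑ e ∈ N3, x1 e = wS - ∑ e ∈ D, x1 e - (wS - ∑ e ∈ N', x1 e) := by
      rw [hsumsplit]; abel
    rw [h1]
    exact Submodule.sub_mem _ (Submodule.sub_mem _ hwS hDamb) (amb_mono hTS hsum)
  have hzero : ∀ e ∈ N3, x1 e = 0 := by
    apply hG S N3 hI3 x1 _ hN3amb
    intro e he
    rw [hN3, Finset.mem_filter] at he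
    exact hx1 e he.1
  have hDN : D ⊆ N := by
    intro e he
    rw [hD, Finset.mem_filter, hNS, Finset.mem_filter] at he
    exact he.1.1
  have hDN' : D ⊆ N' := by
    intro e he
    rw [hD, Finset.mem_filter] at he
    exact he.2
  refine ⟨fun e => if e ∈ D then x1 e else 0, ?_, ?_⟩
  · intro e he
    by_cases hc : e ∈ D
    · simp only [hc, if_true]
      exact hx1 e (hDN' hc)
    · simp only [hc, if_false]
      exact Submodule.zero_mem _
  · have h1 : ∑ e ∈ N, (if e ∈ D then x1 e else 0) = ∑ e ∈ D, x1 e := by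
      rw [← Finset.sum_filter]
      congr 1
      ext e
      rw [Finset.mem_filter]
      exact ⟨fun hh => hh.2, fun hh => ⟨hDN hh, hh⟩⟩
    rw [h1]
    have h2 : ∑ e ∈ N3, x1 e = 0 := Finset.sum_eq_zero hzero
    rw [hsumsplit, h2, add_zero] at hsum
    exact hsum

theorem decompose {S : Finset (Fin 4)} {NS : Finset E} {wS : W} (hwS : wS ∈ amb S)
    (hrep : ∀ t ∈ S, ∃ n ∈ NS, ty n = t) :
    ∃ y : E → W, (∀ n, y n ∈ amb {ty n}) ∧ ∑ n ∈ NS, y n = wS := by
  classical
  have h1 : amb S ≤ ⨆ n ∈ NS, amb {ty n} := by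
    rw [amb_eq_iSup]
    apply iSup_le
    intro t
    apply iSup_le
    intro ht
    obtain ⟨n, hn, hnt⟩ := hrep t ht
    rw [← hnt]
    exact le_iSup₂_of_le n hn le_rfl
  obtain ⟨μ, hμ⟩ := (Submodule.mem_iSup_finset_iff_exists_sum (s := NS) (fun n => amb {ty n}) wS).mp (h1 hwS)
  exact ⟨fun n => (μ n : W), fun n => (μ n).2, hμ⟩

theorem exists_code : ∃ code : E × E → ℕ, Function.Injective code :=
  ⟨fun x => (Fintype.equivFin (E × E) x : ℕ), fun _ _ hab =>
    (Fintype.equivFin (E × E)).injective (Fin.ext hab)⟩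

/-- The extension step. -/
theorem step
    (hmono : ∀ S T : Finset (Fin 4), S ⊂ T → h S < h T)
    (hstrict : ∀ S T : Finset (Fin 4), ¬ S ⊆ T → ¬ T ⊆ S → h (S ∪ T) + h (S ∩ T) < h S + h T)
    {X : E → Submodule ℚ W} (hX1 : ∀ e, X e ≤ amb {ty e}) {m : ℕ} (hX2 : ∀ e, X e ≤ low m)
    (hG : Good ty h X)
    {N : Finset E} (hN : ∀ S, cnt ty N S ≤ h S) (hcard : N.card = h Finset.univ) (w : W) :
    ∃ X' : E → Submodule ℚ W, (∀ e, X e ≤ X' e) ∧ (∀ e, X' e ≤ amb {ty e}) ∧
      (∃ m', ∀ e, X' e ≤ low m') ∧ Good ty h X' ∧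
      ∃ x : E → W, (∀ e ∈ N, x e ∈ X' e) ∧ ∑ e ∈ N, x e = w := by
  classical
  -- tight sets
  let P : Finset (Fin 4) → Prop := fun S =>
    cnt ty N S = h S ∧ ∃ x : E → W, (∀ e ∈ N, x e ∈ X e) ∧ w - ∑ e ∈ N, x e ∈ amb S
  have hPuniv : P Finset.univ := by
    refine ⟨?_, fun _ => 0, fun e _ => Submodule.zero_mem _, amb_univ _⟩
    rw [← hcard]
    unfold cnt
    congr 1
    ext e
    simp
  obtain ⟨S, hSmem, hSmin⟩ := Finset.exists_min_image (Finset.univ.filter P) (fun S => S.card)
    ⟨Finset.univ, Finset.mem_filter.mpr ⟨Finset.mem_univ _, hPuniv⟩⟩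
  obtain ⟨hScnt, x0, hx0, hwS⟩ := (Finset.mem_filter.mp hSmem).2
  have hmin : ∀ T, T ⊂ S → ¬ P T := by
    intro T hT hPT
    have h1 := hSmin T (Finset.mem_filter.mpr ⟨Finset.mem_univ _, hPT⟩)
    have h2 := Finset.card_lt_card hT
    omega
  set wS := w - ∑ e ∈ N, x0 e with hwSdef
  set NS := N.filter (fun e => ty e ∈ S) with hNS
  have hrep : ∀ t ∈ S, ∃ n ∈ NS, ty n = t := by
    intro t ht
    by_contra hc
    push Not at hc
    have h1 : cnt ty N S ≤ cnt ty N (S.erase t) := by
      unfold cnt
      apply Finset.card_le_card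
      intro e he
      have h2 := hc e he
      rw [Finset.mem_filter] at he ⊢
      exact ⟨he.1, Finset.mem_erase.mpr ⟨h2, he.2⟩⟩
    have h2 := hN (S.erase t)
    have h3 := hmono _ _ (Finset.erase_ssubset ht)
    omega
  obtain ⟨y0, hy0amb, hy0sum⟩ := decompose hwS hrep
  choose my0 hmy0 using fun e => exists_low (y0 e)
  obtain ⟨m1, hm1, hm1'⟩ : ∃ m1, m ≤ m1 ∧ ∀ e, y0 e ∈ low m1 := by
    refine ⟨max m (Finset.univ.sup my0), le_max_left _ _, fun e => ?_⟩
    exact low_mono (le_trans (Finset.le_sup (f := my0) (Finset.mem_univ e)) (le_max_right _ _)) (hmy0 e)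
  obtain ⟨code, hcode⟩ := exists_code (E := E)
  let u : E → E → W := fun a b => Finsupp.single (ty a, ty b, m1 + code (a, b)) 1
  let z : E → W := fun n => ∑ n' ∈ NS, (u n n' - u n' n)
  let y : E → W := fun n => y0 n + z n
  have hzsum : ∑ n ∈ NS, z n = 0 := by
    simp only [z]
    have h1 : ∑ n ∈ NS, ∑ n' ∈ NS, (u n n' - u n' n) =
        (∑ n ∈ NS, ∑ n' ∈ NS, u n n') - ∑ n ∈ NS, ∑ n' ∈ NS, u n' n := by
      rw [← Finset.sum_sub_distrib]
      apply Finset.sum_congr rfl
      intro n _
      rw [Finset.sum_sub_distrib]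
    rw [h1, Finset.sum_comm, sub_self]
  have hysum : ∑ n ∈ NS, y n = wS := by
    simp only [y]
    rw [Finset.sum_add_distrib, hzsum, add_zero, hy0sum]
  have hu1 : ∀ a b, u a b ∈ amb {ty a} := by
    intro a b
    rw [mem_amb]
    intro i hi
    simp only [u]
    rw [Finsupp.single_apply, if_neg]
    intro hc
    apply hi
    left
    rw [← hc]
    simp
  have hu2 : ∀ a b, u a b ∈ amb {ty b} := by
    intro a b
    rw [mem_amb]
    intro i hi
    simp only [u]
    rw [Finsupp.single_apply, if_neg]
    intro hc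
    apply hi
    right
    rw [← hc]
    simp
  have hzamb : ∀ n, z n ∈ amb {ty n} := fun n =>
    Submodule.sum_mem _ (fun n' _ => Submodule.sub_mem _ (hu1 _ _) (hu2 _ _))
  have hyamb : ∀ n, y n ∈ amb {ty n} := fun n => Submodule.add_mem _ (hy0amb n) (hzamb n)
  -- evaluation of z at fresh coordinates
  have hzeval : ∀ e a b : E, a ∈ NS → b ∈ NS →
      z e (ty a, ty b, m1 + code (a, b)) = (if e = a then 1 else 0) - (if e = b then 1 else 0) := by
    intro e a b ha hb
    have hu : ∀ c d : E, u c d (ty a, ty b, m1 + code (a, b)) = if c = a ∧ d = b then 1 else 0 := by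
      intro c d
      simp only [u]
      rw [Finsupp.single_apply]
      by_cases hcd : c = a ∧ d = b
      · rw [if_pos hcd, if_pos]
        rw [hcd.1, hcd.2]
      · rw [if_neg hcd, if_neg]
        intro hc
        apply hcd
        have h1 : m1 + code (c, d) = m1 + code (a, b) := congrArg (fun q => q.2.2) hc
        have h2 : (c, d) = (a, b) := hcode (by omega)
        exact ⟨congrArg Prod.fst h2, congrArg Prod.snd h2⟩
    simp only [z]
    rw [Finsupp.finsetSum_apply]
    simp only [Finsupp.sub_apply, hu]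
    rw [Finset.sum_sub_distrib]
    congr 1
    · by_cases hea : e = a
      · simp [hea, hb]
      · simp [hea]
    · by_cases heb : e = b
      · simp [heb, ha]
      · simp [heb]
  let X' : E → Submodule ℚ W := fun n => if n ∈ NS then X n ⊔ Submodule.span ℚ {y n} else X n
  have hXX' : ∀ e, X e ≤ X' e := by
    intro e
    simp only [X']
    split_ifs
    · exact le_sup_left
    · exact le_rfl
  refine ⟨X', hXX', ?_, ?_, ?_, ?_⟩
  · intro e
    simp only [X']
    split_ifs
    · apply sup_le (hX1 e)
      rw [Submodule.span_singleton_le_iff_mem]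
      exact hyamb e
    · exact hX1 e
  · choose my hmy using fun e => exists_low (y e)
    refine ⟨max m (Finset.univ.sup my), fun e => ?_⟩
    simp only [X']
    split_ifs
    · apply sup_le (le_trans (hX2 e) (low_mono (le_max_left _ _)))
      rw [Submodule.span_singleton_le_iff_mem]
      exact low_mono (le_trans (Finset.le_sup (f := my) (Finset.mem_univ e)) (le_max_right _ _)) (hmy e)
    · exact le_trans (hX2 e) (low_mono (le_max_left _ _))
  · -- Good X'
    intro T N' hI x' hx' hsum
    have hex : ∀ e, ∃ xc : W × ℚ, e ∈ N' → (xc.1 ∈ X e ∧ x' e = xc.1 + xc.2 • y e ∧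
        (e ∉ NS → xc.2 = 0)) := by
      intro e
      by_cases he : e ∈ N'
      · have h1 := hx' e he
        simp only [X'] at h1
        by_cases hc : e ∈ NS
        · rw [if_pos hc] at h1
          obtain ⟨a, ha, b, hb, hab⟩ := Submodule.mem_sup.mp h1
          obtain ⟨c, hc'⟩ := Submodule.mem_span_singleton.mp hb
          exact ⟨(a, c), fun _ => ⟨ha, by simp only [hc', hab], fun hh => absurd hc hh⟩⟩
        · rw [if_neg hc] at h1
          exact ⟨(x' e, 0), fun _ => ⟨h1, by simp, fun _ => rfl⟩⟩
      · exact ⟨(0, 0), fun hh => absurd hh he⟩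
    choose xc hxc using hex
    let x : E → W := fun e => (xc e).1
    let c : E → ℚ := fun e => if e ∈ N' then (xc e).2 else 0
    have hxX : ∀ e ∈ N', x e ∈ X e := fun e he => (hxc e he).1
    have hx'eq : ∀ e ∈ N', x' e = x e + c e • y e := by
      intro e he
      simp only [x, c, if_pos he]
      exact (hxc e he).2.1
    have hcN' : ∀ e, e ∉ N' → c e = 0 := fun e he => by simp only [c, if_neg he]
    have hcNS : ∀ e, e ∉ NS → c e = 0 := by
      intro e he
      by_cases he' : e ∈ N'
      · simp only [c, if_pos he']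
        exact (hxc e he').2.2 he
      · exact hcN' e he'
    have hsum' : ∑ e ∈ N', x' e = ∑ e ∈ N', (x e + c e • y e) := Finset.sum_congr rfl hx'eq
    -- coordinates
    have hcoord : ∀ a ∈ NS, ∀ b ∈ NS, ty a ∉ T → ty b ∉ T → c a = c b := by
      intro a ha b hb haT hbT
      have h1 : (∑ e ∈ N', x' e) (ty a, ty b, m1 + code (a, b)) = 0 := by
        rw [mem_amb] at hsum
        apply hsum
        rintro (hh | hh)
        · exact haT hh
        · exact hbT hh
      rw [hsum', Finsupp.finsetSum_apply] at h1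
      have h2 : ∀ e ∈ N', (x e + c e • y e) (ty a, ty b, m1 + code (a, b)) =
          c e * (if e = a then 1 else 0) - c e * (if e = b then 1 else 0) := by
        intro e he
        have h3 : x e (ty a, ty b, m1 + code (a, b)) = 0 := by
          have h4 := hX2 e (hxX e he)
          rw [mem_low] at h4
          apply h4
          simp only
          omega
        have h5 : y0 e (ty a, ty b, m1 + code (a, b)) = 0 := by
          have h4 := hm1' e
          rw [mem_low] at h4
          apply h4
          simp only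
          omega
        rw [Finsupp.add_apply, Finsupp.smul_apply, h3]
        simp only [y]
        rw [Finsupp.add_apply, h5, hzeval e a b ha hb, smul_eq_mul]
        ring
      rw [Finset.sum_congr rfl h2, Finset.sum_sub_distrib] at h1
      have h6 : ∀ d : E, ∑ e ∈ N', c e * (if e = d then 1 else 0) = c d := by
        intro d
        by_cases hd : d ∈ N'
        · simp [hd]
        · rw [hcN' d hd]
          apply Finset.sum_eq_zero
          intro e he
          have : e ≠ d := fun hh => hd (hh ▸ he)
          simp [this]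
      rw [h6, h6] at h1
      linarith
    -- all coefficients vanish
    have hcall : ∀ e, c e = 0 := by
      by_contra hne
      push Not at hne
      obtain ⟨n0, hn0⟩ := hne
      have hn0NS : n0 ∈ NS := by
        by_contra hc
        exact hn0 (hcNS n0 hc)
      have hn0N' : n0 ∈ N' := by
        by_contra hc
        exact hn0 (hcN' n0 hc)
      have hn0T : ty n0 ∉ T := hI.not_mem hn0N'
      have hn0N : n0 ∈ N := (Finset.mem_filter.mp hn0NS).1
      have hn0S : ty n0 ∈ S := (Finset.mem_filter.mp hn0NS).2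
      have hcase : ∀ n ∈ N, ty n ∈ S → n ∉ N' → ty n ∈ T := by
        intro n hn hnS hnN'
        by_contra hnT
        have h1 := hcoord n0 hn0NS n (Finset.mem_filter.mpr ⟨hn, hnS⟩) hn0T hnT
        rw [hcN' n hnN'] at h1
        exact hn0 h1
      set c0 := c n0 with hc0
      have hceq : ∀ n ∈ NS, n ∈ N' → c n = c0 := by
        intro n hn hnN'
        exact hcoord n hn n0 hn0NS (hI.not_mem hnN') hn0T
      -- the sum
      have hsumy : ∑ e ∈ N', c e • y e = c0 • ∑ e ∈ NS.filter (fun e => e ∈ N'), y e := by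
        rw [Finset.smul_sum]
        have h1 : ∑ e ∈ N', c e • y e = ∑ e ∈ N'.filter (fun e => e ∈ NS), c e • y e := by
          rw [Finset.sum_filter]
          apply Finset.sum_congr rfl
          intro e _
          by_cases hc : e ∈ NS
          · rw [if_pos hc]
          · rw [if_neg hc, hcNS e hc, zero_smul]
        rw [h1]
        have h2 : N'.filter (fun e => e ∈ NS) = NS.filter (fun e => e ∈ N') := by
          ext e
          constructor
          · intro he
            exact Finset.mem_filter.mpr ⟨(Finset.mem_filter.mp he).2, (Finset.mem_filter.mp he).1⟩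
          · intro he
            exact Finset.mem_filter.mpr ⟨(Finset.mem_filter.mp he).2, (Finset.mem_filter.mp he).1⟩
        rw [h2]
        apply Finset.sum_congr rfl
        intro e he
        rw [Finset.mem_filter] at he
        rw [hceq e he.1 he.2]
      have hrestT : ∑ e ∈ NS.filter (fun e => ¬ e ∈ N'), y e ∈ amb T := by
        apply Submodule.sum_mem
        intro e he
        rw [Finset.mem_filter] at he
        have h1 := (Finset.mem_filter.mp he.1)
        have h2 := hcase e h1.1 h1.2 he.2
        exact amb_mono (by simpa using h2) (hyamb e)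
      have hwSsplit : wS = ∑ e ∈ NS.filter (fun e => e ∈ N'), y e +
          ∑ e ∈ NS.filter (fun e => ¬ e ∈ N'), y e := by
        rw [← hysum]
        exact (Finset.sum_filter_add_sum_filter_not NS _ _).symm
      have hkey := key hstrict hX1 hG hN hScnt hwS hI hcase hn0S hn0N'
        (x1 := fun e => -(c0⁻¹ • x e)) (fun e he => Submodule.neg_mem _ (Submodule.smul_mem _ _ (hxX e he)))
        (by
          have h1 : wS - ∑ e ∈ N', -(c0⁻¹ • x e) =
              c0⁻¹ • (∑ e ∈ N', x' e) + ∑ e ∈ NS.filter (fun e => ¬ e ∈ N'), y e := by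
            rw [hsum', Finset.sum_add_distrib, hsumy, smul_add, smul_smul, inv_mul_cancel₀ hn0,
              one_smul, Finset.smul_sum, Finset.sum_neg_distrib]
            conv_lhs => rw [hwSsplit]
            abel
          rw [h1]
          exact Submodule.add_mem _ (Submodule.smul_mem _ _ hsum) hrestT)
      obtain ⟨hTS, hTcnt, x2, hx2, hx2sum⟩ := hkey
      apply hmin T hTS
      refine ⟨hTcnt, fun e => x0 e + x2 e, fun e he => Submodule.add_mem _ (hx0 e he) (hx2 e he), ?_⟩
      have h1 : w - ∑ e ∈ N, (x0 e + x2 e) = wS - ∑ e ∈ N, x2 e := by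
        rw [Finset.sum_add_distrib, hwSdef]
        abel
      rw [h1]
      exact hx2sum
    have hxeq : ∀ e ∈ N', x' e = x e := by
      intro e he
      rw [hx'eq e he, hcall e, zero_smul, add_zero]
    intro e he
    rw [hxeq e he]
    apply hG T N' hI x hxX _ e he
    rw [← Finset.sum_congr rfl hxeq]
    exact hsum
  · -- the task is fulfilled
    refine ⟨fun e => x0 e + if e ∈ NS then y e else 0, ?_, ?_⟩
    · intro e he
      apply Submodule.add_mem _ (hXX' e (hx0 e he))
      by_cases hc : e ∈ NS
      · simp only [X', if_pos hc]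
        exact Submodule.mem_sup_right (Submodule.mem_span_singleton_self _)
      · simp only [if_neg hc]
        exact Submodule.zero_mem _
    · rw [Finset.sum_add_distrib, ← Finset.sum_filter]
      have h1 : N.filter (fun e => e ∈ NS) = NS := by
        ext e
        rw [Finset.mem_filter]
        exact ⟨fun hh => hh.2, fun hh => ⟨(Finset.mem_filter.mp hh).1, hh⟩⟩
      rw [h1, hysum, hwSdef]
      abel

/-- Adding a fresh vector to one of the subspaces. -/
theorem step_grow
    {X : E → Submodule ℚ W} (hX1 : ∀ e, X e ≤ amb {ty e}) {m : ℕ} (hX2 : ∀ e, X e ≤ low m)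
    (hG : Good ty h X) (e0 : E) (k : ℕ) :
    ∃ X' : E → Submodule ℚ W, (∀ e, X e ≤ X' e) ∧ (∀ e, X' e ≤ amb {ty e}) ∧
      (∃ m', ∀ e, X' e ≤ low m') ∧ Good ty h X' ∧ ∃ v ∈ X' e0, v ∉ low k := by
  classical
  set m1 := max m k with hm1
  let v : W := Finsupp.single (ty e0, ty e0, m1) 1
  let X' : E → Submodule ℚ W := fun n => if n = e0 then X n ⊔ Submodule.span ℚ {v} else X n
  have hvamb : v ∈ amb {ty e0} := by
    rw [mem_amb]
    intro i hi
    simp only [v]
    rw [Finsupp.single_apply, if_neg]
    intro hc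
    apply hi
    left
    rw [← hc]
    simp
  have hXX' : ∀ e, X e ≤ X' e := by
    intro e
    simp only [X']
    split_ifs
    · exact le_sup_left
    · exact le_rfl
  refine ⟨X', hXX', ?_, ⟨m1 + 1, ?_⟩, ?_, v, ?_, ?_⟩
  · intro e
    simp only [X']
    split_ifs with hc
    · apply sup_le (hX1 e)
      rw [Submodule.span_singleton_le_iff_mem, hc]
      exact hvamb
    · exact hX1 e
  · intro e
    have h1 : m ≤ m1 + 1 := le_trans (le_max_left m k) (Nat.le_succ _)
    simp only [X']
    split_ifs with hc
    · apply sup_le (le_trans (hX2 e) (low_mono h1))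
      rw [Submodule.span_singleton_le_iff_mem, mem_low]
      intro i hi
      simp only [v]
      rw [Finsupp.single_apply, if_neg]
      intro hc
      apply hi
      rw [← hc]
      simp
    · exact le_trans (hX2 e) (low_mono h1)
  · intro T N' hI x' hx' hsum
    by_cases he0 : e0 ∈ N'
    · have h1 := hx' e0 he0
      simp only [X', if_true] at h1
      obtain ⟨a, ha, b, hb, hab⟩ := Submodule.mem_sup.mp h1
      obtain ⟨c, hc'⟩ := Submodule.mem_span_singleton.mp hb
      have hothers : ∀ e ∈ N', e ≠ e0 → x' e ∈ X e := by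
        intro e he hne
        have h2 := hx' e he
        simp only [X', if_neg hne] at h2
        exact h2
      have hT0 : ty e0 ∉ T := hI.not_mem he0
      have hcz : c = 0 := by
        have h3 : (∑ e ∈ N', x' e) (ty e0, ty e0, m1) = 0 := by
          rw [mem_amb] at hsum
          apply hsum
          rintro (hh | hh)
          · exact hT0 hh
          · exact hT0 hh
        rw [Finsupp.finsetSum_apply, ← Finset.add_sum_erase _ _ he0] at h3
        have h4 : ∑ e ∈ N'.erase e0, x' e (ty e0, ty e0, m1) = 0 := by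
          apply Finset.sum_eq_zero
          intro e he
          rw [Finset.mem_erase] at he
          have h5 := hX2 e (hothers e he.2 he.1)
          rw [mem_low] at h5
          apply h5
          simp only
          have := le_max_left m k
          omega
        have h6 : a (ty e0, ty e0, m1) = 0 := by
          have h5 := hX2 e0 ha
          rw [mem_low] at h5
          apply h5
          simp only
          have := le_max_left m k
          omega
        rw [h4, add_zero, ← hab, ← hc', Finsupp.add_apply, h6, zero_add, Finsupp.smul_apply] at h3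
        simpa [v] using h3
      apply hG T N' hI x' _ hsum
      intro e he
      by_cases hne : e = e0
      · rw [hne, ← hab, ← hc', hcz, zero_smul, add_zero]
        exact ha
      · exact hothers e he hne
    · apply hG T N' hI x' _ hsum
      intro e he
      have hne : e ≠ e0 := fun hh => he0 (hh ▸ he)
      have h2 := hx' e he
      simp only [X', if_neg hne] at h2
      exact h2
  · simp only [X', if_true]
    exact Submodule.mem_sup_right (Submodule.mem_span_singleton_self _)
  · intro hc
    rw [mem_low] at hc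
    have h1 := hc (ty e0, ty e0, m1) (by
      simp only
      have := le_max_right m k
      omega)
    simp [v] at h1

end

end Pool.Agent.Lib.MP_dbb207_co
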