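import Pool.Agent.Lib.MP_dbb207_co.Final

/-!
A matrix over a ring whose normal forms have entries in `G` or zero gives a `(R, G)`-chain group,
namely its row space, with the same matroid.  This holds over every ring, with no finiteness
assumption.
-/

set_option autoImplicit false
set_option linter.unusedSectionVars false

namespace Pool.Agent.Lib.MP_dbb207_co.ChainGroup

open Matrix

variable {R : Type} [Ring R] {E : Type} [Fintype E] {r : ℕ}

/-- the identity matrix with one column replaced is invertible as soon as its diagonal entry is -/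
theorem isUnit_replaced (i : Fin r) (v : Fin r → R) (w : R) (h1 : v i * w = 1) (h2 : w * v i = 1) :
    IsUnit (Matrix.of (fun j k : Fin r => if k = i then v j else if j = k then (1 : R) else 0)) := by
  classical
  set P : Matrix (Fin r) (Fin r) R :=
    Matrix.of (fun j k : Fin r => if k = i then v j else if j = k then (1 : R) else 0) with hP
  let Q : Matrix (Fin r) (Fin r) R :=
    Matrix.of (fun j k : Fin r => if k = i then (if j = i then w else - (v j * w)) else
      if j = k then (1 : R) else 0)
  have hPQ : P * Q = 1 := by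
    ext j k
    rw [Matrix.mul_apply, Matrix.one_apply]
    by_cases hk : k = i
    · subst hk
      by_cases hj : j = k
      · subst hj
        rw [Finset.sum_eq_single j]
        · simp [hP, Q, h1]
        · intro l _ hl
          simp [hP, hl, hl.symm]
        · simp
      · rw [if_neg hj]
        rw [← Finset.add_sum_erase _ _ (Finset.mem_univ k),
          ← Finset.add_sum_erase (Finset.univ.erase k) _ (Finset.mem_erase.mpr ⟨hj, Finset.mem_univ j⟩),
          Finset.sum_eq_zero]
        · simp [hP, Q, hj]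
        · intro l hl
          rw [Finset.mem_erase, Finset.mem_erase] at hl
          simp [hP, hl.2.1, hl.1.symm]
    · rw [Finset.sum_eq_single k]
      · simp [hP, Q, hk]
      · intro l _ hl
        simp [Q, hk, hl]
      · simp
  have hQP : Q * P = 1 := by
    ext j k
    rw [Matrix.mul_apply, Matrix.one_apply]
    by_cases hk : k = i
    · subst hk
      by_cases hj : j = k
      · subst hj
        rw [Finset.sum_eq_single j]
        · simp [hP, Q, h2]
        · intro l _ hl
          simp [Q, hl, hl.symm]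
        · simp
      · rw [if_neg hj]
        rw [← Finset.add_sum_erase _ _ (Finset.mem_univ k),
          ← Finset.add_sum_erase (Finset.univ.erase k) _ (Finset.mem_erase.mpr ⟨hj, Finset.mem_univ j⟩),
          Finset.sum_eq_zero]
        · simp [hP, Q, hj, mul_assoc, h2]
        · intro l hl
          rw [Finset.mem_erase, Finset.mem_erase] at hl
          simp [Q, hl.2.1, hl.1.symm]
    · rw [Finset.sum_eq_single k]
      · simp [hP, Q, hk]
      · intro l _ hl
        simp [hP, hk, hl]
      · simp
  exact ⟨⟨P, Q, hPQ, hQP⟩, rfl⟩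

/-- The row space of a matrix. -/
noncomputable def rows (A : Matrix (Fin r) E R) : Submodule R (E → R) :=
  LinearMap.range (Matrix.vecMulLinear A)

theorem mem_rows {A : Matrix (Fin r) E R} {c : E → R} :
    c ∈ rows A ↔ ∃ x : Fin r → R, x ᵥ* A = c := Iff.rfl

section

variable [Nontrivial R] {G : Subgroup Rˣ} {A : Matrix (Fin r) E R} {M : Matroid E}

/-- a nonzero chain meets every base -/
theorem meets (hM : ∀ B : Set E, M.IsBase B ↔
      ∃ b : Fin r ↪ E, Set.range ⇑b = B ∧ IsUnit (A.submatrix id ⇑b))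
    {c : E → R} (hc : c ∈ rows A) (hc0 : c ≠ 0) (B : Set E) (hB : M.IsBase B) :
    (Function.support c ∩ B).Nonempty := by
  classical
  obtain ⟨b, rfl, hb⟩ := (hM B).mp hB
  obtain ⟨x, rfl⟩ := mem_rows.mp hc
  by_contra hcon
  rw [Set.not_nonempty_iff_eq_empty] at hcon
  apply hc0
  have h1 : x ᵥ* (A.submatrix id b) = 0 := by
    ext j
    have h2 : b j ∉ Function.support (x ᵥ* A) := by
      intro h
      have : b j ∈ Function.support (x ᵥ* A) ∩ Set.range b := ⟨h, j, rfl⟩
      rw [hcon] at this
      exact this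
    rw [Function.notMem_support] at h2
    exact h2
  obtain ⟨u, hu⟩ := hb
  have h3 : x = 0 := by
    have h4 : (x ᵥ* (A.submatrix id b)) ᵥ* (↑u⁻¹ : Matrix (Fin r) (Fin r) R) = x := by
      rw [Matrix.vecMul_vecMul, ← hu, Units.mul_inv, Matrix.vecMul_one]
    rw [← h4, h1, Matrix.zero_vecMul]
  rw [h3, Matrix.zero_vecMul]

/-- a minimal set meeting all bases contains the support of a primitive chain -/
theorem primitive (hA : ∀ (b : Fin r ↪ E) (N : Matrix (Fin r) (Fin r) R),
      N * A.submatrix id ⇑b = 1 → A.submatrix id ⇑b * N = 1 →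
      ∀ (i : Fin r) (j : E), (N * A) i j = 0 ∨ ∃ g ∈ G, (g : R) = (N * A) i j)
    (hM : ∀ B : Set E, M.IsBase B ↔
      ∃ b : Fin r ↪ E, Set.range ⇑b = B ∧ IsUnit (A.submatrix id ⇑b))
    {K : Set E} (hK : M.IsCocircuit K) :
    ∃ (B : Set E) (e : E) (c : E → R), M.IsBase B ∧ K ∩ B = {e} ∧ c ∈ rows A ∧
      (∀ f, c f = 0 ∨ ∃ g ∈ G, (g : R) = c f) ∧ c e = 1 ∧ (∀ f ∈ B, f ≠ e → c f = 0) ∧
      Function.support c ⊆ K := by
  classical
  have hne := hK.nonempty
  rw [Matroid.isCocircuit_iff_minimal] at hK
  obtain ⟨e, he⟩ := hne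
  have h1 : ¬ ∀ B, M.IsBase B → ((K \ {e}) ∩ B).Nonempty := by
    intro h
    have := hK.2 h Set.sdiff_subset he
    exact this.2 rfl
  push Not at h1
  obtain ⟨B, hB, hKB⟩ := h1
  have hKB' : K ∩ B = {e} := by
    obtain ⟨x, hx1, hx2⟩ := hK.1 B hB
    have hsub : ∀ y ∈ K ∩ B, y = e := by
      rintro y ⟨hy1, hy2⟩
      by_contra hye
      have : y ∈ (K \ {e}) ∩ B := ⟨⟨hy1, hye⟩, hy2⟩
      rw [hKB] at this
      exact this
    have hxe := hsub x ⟨hx1, hx2⟩
    subst hxe
    ext y
    constructor
    · intro hy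
      exact hsub y hy
    · intro hy
      rw [Set.mem_singleton_iff] at hy
      subst hy
      exact ⟨hx1, hx2⟩
  have heB : e ∈ B := by
    have : e ∈ K ∩ B := by rw [hKB']; rfl
    exact this.2
  obtain ⟨b, hbB, hb⟩ := (hM B).mp hB
  obtain ⟨u, hu⟩ := hb
  set N : Matrix (Fin r) (Fin r) R := (↑u⁻¹ : Matrix (Fin r) (Fin r) R) with hN
  have hN1 : N * A.submatrix id b = 1 := by rw [hN, ← hu, Units.inv_mul]
  have hN2 : A.submatrix id b * N = 1 := by rw [hN, ← hu, Units.mul_inv]
  obtain ⟨i, hi⟩ : ∃ i, b i = e := by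
    rw [← hbB] at heB
    exact heB
  have hNA : ∀ j k, (N * A) j (b k) = if j = k then 1 else 0 := by
    intro j k
    have := congrFun (congrFun hN1 j) k
    rw [Matrix.one_apply] at this
    exact this
  refine ⟨B, e, fun f => (N * A) i f, hB, hKB', ?_, hA b N hN1 hN2 i, ?_, ?_, ?_⟩
  · rw [mem_rows]
    refine ⟨N i, ?_⟩
    rfl
  · change (N * A) i e = 1
    rw [← hi, hNA, if_pos rfl]
  · intro f hf hfe
    rw [← hbB] at hf
    obtain ⟨k, rfl⟩ := hf
    change (N * A) i (b k) = 0
    rw [hNA, if_neg]
    rintro rfl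
    exact hfe hi
  · intro f hf
    rw [Function.mem_support] at hf
    by_contra hfK
    have hfe : f ≠ e := by
      rintro rfl
      exact hfK he
    rcases hA b N hN1 hN2 i f with h0 | ⟨g, -, hg⟩
    · exact hf h0
    · have hfB : ∀ k, k ≠ i → b k ≠ f := by
        intro k hk hkf
        apply hf
        rw [← hkf]
        change (N * A) i (b k) = 0
        rw [hNA, if_neg hk.symm]
      let b' : Fin r ↪ E := ⟨fun k => if k = i then f else b k, by
        intro k l hkl
        simp only at hkl
        by_cases hk : k = i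
        · by_cases hl : l = i
          · rw [hk, hl]
          · rw [if_pos hk, if_neg hl] at hkl
            exact absurd hkl.symm (hfB l hl)
        · by_cases hl : l = i
          · rw [if_neg hk, if_pos hl] at hkl
            exact absurd hkl (hfB k hk)
          · rw [if_neg hk, if_neg hl] at hkl
            exact b.injective hkl⟩
      have hP := isUnit_replaced (R := R) i (fun j => (N * A) j f) ((g⁻¹ : Rˣ) : R)
        (by rw [← hg, Units.mul_inv]) (by rw [← hg, Units.inv_mul])
      have hb' : A.submatrix id b' = A.submatrix id b *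
          Matrix.of (fun j k : Fin r => if k = i then (N * A) j f else if j = k then (1 : R) else 0) := by
        have h5 : N * A.submatrix id b' = Matrix.of (fun j k : Fin r =>
            if k = i then (N * A) j f else if j = k then (1 : R) else 0) := by
          ext j k
          have h6 : (N * A.submatrix id b') j k = (N * A) j (b' k) := rfl
          rw [h6]
          change (N * A) j (if k = i then f else b k) = if k = i then (N * A) j f else
            if j = k then (1 : R) else 0
          by_cases hk : k = i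
          · rw [if_pos hk, if_pos hk]
          · rw [if_neg hk, if_neg hk, hNA]
        rw [← h5, ← Matrix.mul_assoc, hN2, Matrix.one_mul]
      have hbase : M.IsBase (Set.range b') := by
        rw [hM]
        refine ⟨b', rfl, ?_⟩
        rw [hb']
        exact IsUnit.mul ⟨u, hu⟩ hP
      obtain ⟨x, hx1, hx2⟩ := hK.1 _ hbase
      obtain ⟨k, hk⟩ := hx2
      change (if k = i then f else b k) = x at hk
      by_cases hki : k = i
      · rw [if_pos hki] at hk
        rw [← hk] at hx1
        exact hfK hx1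
      · rw [if_neg hki] at hk
        have : x ∈ K ∩ B := ⟨hx1, by rw [← hbB, ← hk]; exact ⟨k, rfl⟩⟩
        rw [hKB', Set.mem_singleton_iff] at this
        apply hki
        apply b.injective
        rw [hk, this, hi]

/-- elementary chains -/
def IsElem (C : Submodule R (E → R)) (c : E → R) : Prop :=
  c ∈ C ∧ c ≠ 0 ∧ ∀ c' ∈ C, c' ≠ 0 → ¬ Function.support c' ⊂ Function.support c

theorem elem_of_cocircuit (hA : ∀ (b : Fin r ↪ E) (N : Matrix (Fin r) (Fin r) R),
      N * A.submatrix id ⇑b = 1 → A.submatrix id ⇑b * N = 1 →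
      ∀ (i : Fin r) (j : E), (N * A) i j = 0 ∨ ∃ g ∈ G, (g : R) = (N * A) i j)
    (hM : ∀ B : Set E, M.IsBase B ↔
      ∃ b : Fin r ↪ E, Set.range ⇑b = B ∧ IsUnit (A.submatrix id ⇑b))
    {K : Set E} (hK : M.IsCocircuit K) :
    ∃ c : E → R, IsElem (rows A) c ∧ Function.support c = K := by
  obtain ⟨B, e, c, hB, hKB, hc, -, hce, -, hcK⟩ := primitive hA hM hK
  have hc0 : c ≠ 0 := by
    rintro rfl
    exact zero_ne_one hce
  have hmin := (Matroid.isCocircuit_iff_minimal.mp hK)
  have hsupp : Function.support c = K :=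
    Set.Subset.antisymm hcK (hmin.2 (fun B' hB' => meets hM hc hc0 B' hB') hcK)
  refine ⟨c, ⟨hc, hc0, ?_⟩, hsupp⟩
  intro c' hc' hc'0 hss
  rw [hsupp] at hss
  exact hss.2 (hmin.2 (fun B' hB' => meets hM hc' hc'0 B' hB') hss.1)

theorem of_elem (hA : ∀ (b : Fin r ↪ E) (N : Matrix (Fin r) (Fin r) R),
      N * A.submatrix id ⇑b = 1 → A.submatrix id ⇑b * N = 1 →
      ∀ (i : Fin r) (j : E), (N * A) i j = 0 ∨ ∃ g ∈ G, (g : R) = (N * A) i j)
    (hM : ∀ B : Set E, M.IsBase B ↔
      ∃ b : Fin r ↪ E, Set.range ⇑b = B ∧ IsUnit (A.submatrix id ⇑b))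
    {c : E → R} (hc : IsElem (rows A) c) :
    M.IsCocircuit (Function.support c) ∧ ∃ (s : R) (c' : E → R), c' ∈ rows A ∧
      (∀ f, c' f = 0 ∨ ∃ g ∈ G, (g : R) = c' f) ∧ c = s • c' := by
  obtain ⟨hcC, hc0, hcmin⟩ := hc
  obtain ⟨K, hKS, hKmin⟩ : ∃ K ⊆ Function.support c, Minimal (fun X ↦ ∀ B, M.IsBase B →
      (X ∩ B).Nonempty) K :=
    exists_minimal_le_of_wellFoundedLT _ _ (fun B hB => meets hM hcC hc0 B hB)
  have hK := Matroid.isCocircuit_iff_minimal.mpr hKmin
  obtain ⟨B, e, c', hB, hKB, hc', hprim, hce, hcB, hcK⟩ := primitive hA hM hK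
  have hc'0 : c' ≠ 0 := by
    rintro rfl
    exact zero_ne_one hce
  have hsub : Function.support c' ⊆ Function.support c := hcK.trans hKS
  have hsupp : Function.support c' = Function.support c := by
    by_contra hne
    exact hcmin c' hc' hc'0 (LE.le.ssubset_of_ne hsub hne)
  have hKc : K = Function.support c := Set.Subset.antisymm hKS (hsupp ▸ hcK)
  refine ⟨hKc ▸ hK, c e, c', hc', hprim, ?_⟩
  by_contra hne
  have hd : c - c e • c' ∈ rows A := (rows A).sub_mem hcC ((rows A).smul_mem _ hc')
  have hd0 : c - c e • c' ≠ 0 := sub_ne_zero.mpr hne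
  obtain ⟨f, hf1, hf2⟩ := meets hM hd hd0 B hB
  apply hf1
  by_cases hfe : f = e
  · subst hfe
    rw [Pi.sub_apply, Pi.smul_apply, hce, smul_eq_mul, mul_one, sub_self]
  · rw [Pi.sub_apply, Pi.smul_apply, hcB f hf2 hfe, smul_zero, sub_zero]
    by_contra hcf
    have : f ∈ K ∩ B := ⟨by rw [hKc]; exact hcf, hf2⟩
    rw [hKB] at this
    exact hfe this

end

end Pool.Agent.Lib.MP_dbb207_co.ChainGroup
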