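import Pool.Agent.Lib.MP_dbb207_co.Approx

set_option autoImplicit false

namespace Pool.Agent.Lib.MP_dbb207_co

variable {E : Type} [Fintype E] [DecidableEq E]

/-- Independence in the free expansion. -/
def HInd (ty : E → Fin 4) (h : Finset (Fin 4) → ℕ) (N : Finset E) : Prop :=
  ∀ S : Finset (Fin 4), cnt ty N S ≤ h S

set_option linter.unusedSectionVars false

variable {ty : E → Fin 4} {h : Finset (Fin 4) → ℕ}

theorem HInd.empty : HInd ty h (∅ : Finset E) := fun S => by simp [cnt]

theorem cnt_mono {N N' : Finset E} (hN : N ⊆ N') (S : Finset (Fin 4)) : cnt ty N S ≤ cnt ty N' S :=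
  Finset.card_le_card (Finset.filter_subset_filter _ hN)

theorem cnt_union_inter (N : Finset E) (S T : Finset (Fin 4)) :
    cnt ty N (S ∪ T) + cnt ty N (S ∩ T) = cnt ty N S + cnt ty N T := by
  unfold cnt
  have h1 : N.filter (fun e => ty e ∈ S ∪ T) =
      N.filter (fun e => ty e ∈ S) ∪ N.filter (fun e => ty e ∈ T) := by
    ext e
    simp only [Finset.mem_filter, Finset.mem_union]
    tauto
  have h2 : N.filter (fun e => ty e ∈ S ∩ T) =
      N.filter (fun e => ty e ∈ S) ∩ N.filter (fun e => ty e ∈ T) := by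
    ext e
    simp only [Finset.mem_filter, Finset.mem_inter]
    tauto
  rw [h1, h2, Finset.card_union_add_card_inter]

theorem cnt_univ (N : Finset E) : cnt ty N Finset.univ = N.card := by
  unfold cnt
  congr 1
  ext e
  simp

theorem cnt_insert {N : Finset E} {e : E} (he : e ∉ N) (S : Finset (Fin 4)) :
    cnt ty (insert e N) S = cnt ty N S + if ty e ∈ S then 1 else 0 := by
  unfold cnt
  rw [Finset.filter_insert]
  split_ifs with h1
  · rw [Finset.card_insert_of_notMem]
    intro hc
    exact he (Finset.mem_filter.mp hc).1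
  · simp

theorem HInd.subset {N N' : Finset E} (hN' : HInd ty h N') (hN : N ⊆ N') : HInd ty h N :=
  fun S => (cnt_mono hN S).trans (hN' S)

/-- A failure of independence of an insertion gives a tight set. -/
theorem HInd.exists_tight {N : Finset E} (hN : HInd ty h N) {e : E} (he : e ∉ N)
    (hne : ¬ HInd ty h (insert e N)) : ∃ S : Finset (Fin 4), ty e ∈ S ∧ cnt ty N S = h S := by
  unfold HInd at hne
  push Not at hne
  obtain ⟨S, hS⟩ := hne
  rw [cnt_insert he] at hS
  have h1 := hN S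
  refine ⟨S, ?_, ?_⟩
  · by_contra hc
    rw [if_neg hc] at hS
    omega
  · split_ifs at hS <;> omega

theorem sub_of_strict
    (hstrict : ∀ S T : Finset (Fin 4), ¬ S ⊆ T → ¬ T ⊆ S → h (S ∪ T) + h (S ∩ T) < h S + h T)
    (S T : Finset (Fin 4)) : h (S ∪ T) + h (S ∩ T) ≤ h S + h T := by
  by_cases h1 : S ⊆ T
  · rw [Finset.union_eq_right.mpr h1, Finset.inter_eq_left.mpr h1, add_comm]
  · by_cases h2 : T ⊆ S
    · rw [Finset.union_eq_left.mpr h2, Finset.inter_eq_right.mpr h2]
    · exact (hstrict S T h1 h2).le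

/-- There is a largest tight set. -/
theorem HInd.exists_max_tight (h0 : h ∅ = 0)
    (hsub : ∀ S T : Finset (Fin 4), h (S ∪ T) + h (S ∩ T) ≤ h S + h T)
    {N : Finset E} (hN : HInd ty h N) :
    ∃ S : Finset (Fin 4), cnt ty N S = h S ∧ ∀ T : Finset (Fin 4), cnt ty N T = h T → T ⊆ S := by
  classical
  obtain ⟨S, hS, hmax⟩ := Finset.exists_max_image
    (Finset.univ.filter (fun S : Finset (Fin 4) => cnt ty N S = h S)) (fun S => S.card)
    ⟨∅, Finset.mem_filter.mpr ⟨Finset.mem_univ _, by rw [h0]; simp [cnt]⟩⟩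
  rw [Finset.mem_filter] at hS
  refine ⟨S, hS.2, fun T hT => ?_⟩
  have h1 := cnt_union_inter (ty := ty) N S T
  have h2 := hsub S T
  have h3 := hN (S ∪ T)
  have h4 := hN (S ∩ T)
  have h5 : cnt ty N (S ∪ T) = h (S ∪ T) := by omega
  have h6 := hmax (S ∪ T) (Finset.mem_filter.mpr ⟨Finset.mem_univ _, h5⟩)
  have h7 : S = S ∪ T := Finset.eq_of_subset_of_card_le Finset.subset_union_left h6
  rw [h7]
  exact Finset.subset_union_right

/-- Augmentation. -/
theorem HInd.aug (h0 : h ∅ = 0)
    (hsub : ∀ S T : Finset (Fin 4), h (S ∪ T) + h (S ∩ T) ≤ h S + h T)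
    {I J : Finset E} (hI : HInd ty h I) (hJ : HInd ty h J) (hlt : I.card < J.card) :
    ∃ e ∈ J, e ∉ I ∧ HInd ty h (insert e I) := by
  classical
  by_contra hc
  push Not at hc
  obtain ⟨S, hS, hmax⟩ := hI.exists_max_tight h0 hsub
  have h1 : ∀ e ∈ J, e ∉ I → ty e ∈ S := by
    intro e he heI
    obtain ⟨T, hT1, hT2⟩ := hI.exists_tight heI (hc e he heI)
    exact hmax T hT2 hT1
  have h2 : J.card = cnt ty J S + (J.filter (fun e => ¬ ty e ∈ S)).card :=
    (Finset.card_filter_add_card_filter_not _).symm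
  have h3 : I.card = cnt ty I S + (I.filter (fun e => ¬ ty e ∈ S)).card :=
    (Finset.card_filter_add_card_filter_not _).symm
  have h4 : J.filter (fun e => ¬ ty e ∈ S) ⊆ I.filter (fun e => ¬ ty e ∈ S) := by
    intro e he
    rw [Finset.mem_filter] at he ⊢
    refine ⟨?_, he.2⟩
    by_contra hc'
    exact he.2 (h1 e he.1 hc')
  have h5 := Finset.card_le_card h4
  have h6 := hJ S
  omega

/-- Extension inside a set of types. -/
theorem HInd.extend (h0 : h ∅ = 0)
    (hmono : ∀ S T : Finset (Fin 4), S ⊂ T → h S < h T)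
    (hsub : ∀ S T : Finset (Fin 4), h (S ∪ T) + h (S ∩ T) ≤ h S + h T)
    (hbig : ∀ t : Fin 4, (Finset.univ.filter (fun e : E => ty e = t)).card = h {t})
    (S : Finset (Fin 4)) {N : Finset E} (hN : HInd ty h N) (hNS : ∀ e ∈ N, ty e ∈ S) :
    ∃ N', N ⊆ N' ∧ HInd ty h N' ∧ (∀ e ∈ N', ty e ∈ S) ∧ N'.card = h S := by
  classical
  obtain ⟨N', hN', hmax⟩ := Finset.exists_max_image
    (Finset.univ.filter (fun N' : Finset E => N ⊆ N' ∧ HInd ty h N' ∧ ∀ e ∈ N', ty e ∈ S))
    (fun N' => N'.card) ⟨N, Finset.mem_filter.mpr ⟨Finset.mem_univ _, subset_rfl, hN, hNS⟩⟩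
  obtain ⟨h1, h2, h3⟩ := (Finset.mem_filter.mp hN').2
  refine ⟨N', h1, h2, h3, ?_⟩
  obtain ⟨T, hT, hTmax⟩ := h2.exists_max_tight h0 hsub
  have hST : S ⊆ T := by
    intro t ht
    by_cases hfull : ∀ e : E, ty e = t → e ∈ N'
    · have h4 : cnt ty N' {t} = h {t} := by
        rw [← hbig t]
        unfold cnt
        congr 1
        ext e
        simp only [Finset.mem_filter, Finset.mem_singleton, Finset.mem_univ, true_and]
        exact ⟨fun hh => hh.2, fun hh => ⟨hfull e hh, hh⟩⟩
      exact hTmax {t} h4 (Finset.mem_singleton_self t)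
    · push Not at hfull
      obtain ⟨e, he1, he2⟩ := hfull
      have h4 : ¬ HInd ty h (insert e N') := by
        intro hc
        have h5 := hmax (insert e N') (Finset.mem_filter.mpr ⟨Finset.mem_univ _,
          h1.trans (Finset.subset_insert _ _), hc, ?_⟩)
        · rw [Finset.card_insert_of_notMem he2] at h5
          omega
        · intro e' he'
          rw [Finset.mem_insert] at he'
          rcases he' with he' | he'
          · rw [he', he1]; exact ht
          · exact h3 e' he'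
      obtain ⟨T', hT'1, hT'2⟩ := h2.exists_tight he2 h4
      rw [← he1]
      exact hTmax T' hT'2 hT'1
  have h5 : cnt ty N' S = N'.card := by
    unfold cnt
    congr 1
    exact Finset.filter_true_of_mem h3
  have h6 : cnt ty N' T ≤ N'.card := Finset.card_le_card (Finset.filter_subset _ _)
  have h7 := h2 S
  have h8 : h S ≤ h T := by
    by_cases hh : S = T
    · rw [hh]
    · exact (hmono S T (Finset.ssubset_iff_subset_ne.mpr ⟨hST, hh⟩)).le
  omega

/-- The free expansion matroid. -/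
def expansion (h0 : h ∅ = 0)
    (hsub : ∀ S T : Finset (Fin 4), h (S ∪ T) + h (S ∩ T) ≤ h S + h T) : Matroid E :=
  (IndepMatroid.ofFinset Set.univ (HInd ty h)
    HInd.empty
    (fun _ _ hJ hIJ => hJ.subset hIJ)
    (fun _ _ hI hJ hlt => hI.aug h0 hsub hJ hlt)
    (fun _ _ => Set.subset_univ _)).matroid

theorem expansion_E (h0 : h ∅ = 0)
    (hsub : ∀ S T : Finset (Fin 4), h (S ∪ T) + h (S ∩ T) ≤ h S + h T) :
    (expansion (ty := ty) h0 hsub).E = Set.univ := rfl

theorem expansion_indep (h0 : h ∅ = 0)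
    (hsub : ∀ S T : Finset (Fin 4), h (S ∪ T) + h (S ∩ T) ≤ h S + h T) (N : Finset E) :
    (expansion (ty := ty) h0 hsub).Indep (N : Set E) ↔ HInd ty h N := by
  unfold expansion
  rw [IndepMatroid.matroid_Indep, IndepMatroid.ofFinset_indep]

theorem expansion_eRk (h0 : h ∅ = 0)
    (hmono : ∀ S T : Finset (Fin 4), S ⊂ T → h S < h T)
    (hsub : ∀ S T : Finset (Fin 4), h (S ∪ T) + h (S ∩ T) ≤ h S + h T)
    (hbig : ∀ t : Fin 4, (Finset.univ.filter (fun e : E => ty e = t)).card = h {t})
    (S : Finset (Fin 4)) :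
    (expansion (ty := ty) h0 hsub).eRk {e : E | ty e ∈ S} = (h S : ℕ∞) := by
  classical
  apply le_antisymm
  · rw [Matroid.eRk_le_iff]
    intro I hIS hI
    obtain ⟨N, rfl⟩ : ∃ N : Finset E, (N : Set E) = I := ⟨I.toFinite.toFinset, I.toFinite.coe_toFinset⟩
    rw [expansion_indep] at hI
    rw [Set.encard_coe_eq_coe_finsetCard]
    have h1 := hI S
    have h2 : cnt ty N S = N.card := by
      unfold cnt
      congr 1
      exact Finset.filter_true_of_mem (fun e he => hIS he)
    rw [h2] at h1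
    exact_mod_cast h1
  · rw [Matroid.le_eRk_iff]
    obtain ⟨N, -, hN, hNS, hcard⟩ := HInd.empty.extend h0 hmono hsub hbig S (by simp)
    refine ⟨(N : Set E), fun e he => hNS e he, (expansion_indep h0 hsub N).mpr hN, ?_⟩
    rw [Set.encard_coe_eq_coe_finsetCard, hcard]

theorem expansion_isBase (h0 : h ∅ = 0)
    (hmono : ∀ S T : Finset (Fin 4), S ⊂ T → h S < h T)
    (hsub : ∀ S T : Finset (Fin 4), h (S ∪ T) + h (S ∩ T) ≤ h S + h T)
    (hbig : ∀ t : Fin 4, (Finset.univ.filter (fun e : E => ty e = t)).card = h {t})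
    (N : Finset E) :
    (expansion (ty := ty) h0 hsub).IsBase (N : Set E) ↔ HInd ty h N ∧ N.card = h Finset.univ := by
  classical
  rw [Matroid.isBase_iff_maximal_indep]
  constructor
  · intro hmax
    have hN : HInd ty h N := (expansion_indep h0 hsub N).mp hmax.prop
    refine ⟨hN, ?_⟩
    obtain ⟨N', hNN', hN', -, hcard⟩ := hN.extend h0 hmono hsub hbig Finset.univ (by simp)
    have h1 : (N' : Set E) ⊆ (N : Set E) :=
      hmax.le_of_ge ((expansion_indep h0 hsub N').mpr hN') (by exact_mod_cast hNN')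
    have h2 : N = N' := subset_antisymm hNN' (by exact_mod_cast h1)
    rw [h2, hcard]
  · rintro ⟨hN, hcard⟩
    refine ⟨(expansion_indep h0 hsub N).mpr hN, ?_⟩
    intro I hI hNI
    obtain ⟨N', rfl⟩ : ∃ N' : Finset E, (N' : Set E) = I := ⟨I.toFinite.toFinset, I.toFinite.coe_toFinset⟩
    rw [expansion_indep] at hI
    have h1 := hI Finset.univ
    rw [cnt_univ] at h1
    have h2 : N ⊆ N' := by exact_mod_cast hNI
    have h3 : N = N' := Finset.eq_of_subset_of_card_le h2 (by omega)
    rw [h3]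

end Pool.Agent.Lib.MP_dbb207_co
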