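import Pool.Agent.Lib.MP_dbb207_co.Normal

set_option autoImplicit false

namespace Pool.Agent.Lib.MP_dbb207_co

open Cardinal

theorem rank_W : Module.rank ℚ W = ℵ₀ := by
  rw [rank_finsupp_self', Cardinal.mk_eq_aleph0]

theorem rank_of_unbounded (V : Submodule ℚ W) (hV : ∀ k, ∃ v ∈ V, v ∉ low k) :
    Module.rank ℚ W = Module.rank ℚ V := by
  rw [rank_W]
  apply le_antisymm
  · by_contra hlt
    push Not at hlt
    rw [Module.rank_lt_aleph0_iff] at hlt
    have hfg : V.FG := Module.Finite.iff_fg.mp hlt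
    obtain ⟨s, hs⟩ := hfg
    choose m hm using exists_low
    obtain ⟨v, hv1, hv2⟩ := hV (s.sup m)
    apply hv2
    have h1 : V ≤ low (s.sup m) := by
      rw [← hs, Submodule.span_le]
      intro x hx
      exact low_mono (Finset.le_sup hx) (hm x)
    exact h1 hv1
  · rw [← rank_W]
    exact Submodule.rank_le V

theorem exists_param (V : Submodule ℚ W) (hV : ∀ k, ∃ v ∈ V, v ∉ low k) :
    ∃ k : W →ₗ[ℚ] W, Function.Injective k ∧ (∀ x, k x ∈ V) ∧ ∀ v ∈ V, ∃ x, k x = v := by
  obtain ⟨e⟩ := nonempty_linearEquiv_of_rank_eq (rank_of_unbounded V hV)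
  refine ⟨V.subtype ∘ₗ e.toLinearMap, ?_, ?_, ?_⟩
  · rw [LinearMap.coe_comp]
    exact V.injective_subtype.comp e.injective
  · intro x
    exact (e x).2
  · intro v hv
    refine ⟨e.symm ⟨v, hv⟩, ?_⟩
    show ((e (e.symm ⟨v, hv⟩) : V) : W) = v
    rw [LinearEquiv.apply_symm_apply]

/-- The representation theorem: every strictly monotone and strictly submodular function on four
types gives a matroid represented by endomorphisms of a countable-dimensional space. -/
theorem representation {E : Type} [Fintype E] [DecidableEq E]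
    (ty : E → Fin 4) (h : Finset (Fin 4) → ℕ) (h0 : h ∅ = 0)
    (hmono : ∀ S T : Finset (Fin 4), S ⊂ T → h S < h T)
    (hstrict : ∀ S T : Finset (Fin 4), ¬ S ⊆ T → ¬ T ⊆ S → h (S ∪ T) + h (S ∩ T) < h S + h T)
    (hbig : ∀ t : Fin 4, (Finset.univ.filter (fun e : E => ty e = t)).card = h {t})
    (r : ℕ) (hr : r = h Finset.univ) :
    ∃ A : Matrix (Fin r) E (Module.End ℚ W),
      (∀ b : Fin r ↪ E, IsUnit (A.submatrix id b) ↔ HInd ty h (Finset.univ.map b)) ∧
      (∀ (b : Fin r ↪ E) (N : Matrix (Fin r) (Fin r) (Module.End ℚ W)),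
        N * A.submatrix id b = 1 → A.submatrix id b * N = 1 →
        ∀ (i : Fin r) (j : E), (N * A) i j = 0 ∨ IsUnit ((N * A) i j)) := by
  classical
  have hsub := sub_of_strict (h := h) hstrict
  obtain ⟨V, hV, hG, hspan, hunb⟩ := limit (ty := ty) hmono hstrict
  choose k hk hkV hkV' using fun e => exists_param (V e) (hunb e)
  have hbij : ∀ b : Fin r ↪ E, HInd ty h (Finset.univ.map b) → Function.Bijective (Phi k b) := by
    intro b hb
    refine ⟨Phi_inj h0 hG k hk hkV b hb, Phi_surj k hkV' b (hspan _ hb ?_)⟩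
    rw [Finset.card_map, Finset.card_univ, Fintype.card_fin, hr]
  obtain ⟨N0, -, hN0, -, hcard⟩ := (HInd.empty (E := E) (ty := ty) (h := h)).extend h0 hmono hsub
    hbig Finset.univ (by simp)
  rw [← hr] at hcard
  let b0 : Fin r ↪ E := (N0.equivFinOfCardEq hcard).symm.toEmbedding.trans
    (Function.Embedding.subtype _)
  have hb0 : Finset.univ.map b0 = N0 := by
    ext e
    rw [Finset.mem_map]
    constructor
    · rintro ⟨j, -, hj⟩
      rw [← hj]
      exact ((N0.equivFinOfCardEq hcard).symm j).2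
    · intro he
      refine ⟨N0.equivFinOfCardEq hcard ⟨e, he⟩, Finset.mem_univ _, ?_⟩
      show (((N0.equivFinOfCardEq hcard).symm (N0.equivFinOfCardEq hcard ⟨e, he⟩)) : E) = e
      rw [Equiv.symm_apply_apply]
  let θ : W ≃ₗ[ℚ] (Fin r → W) := (LinearEquiv.ofBijective (Phi k b0)
    (hbij b0 (by rw [hb0]; exact hN0))).symm
  refine ⟨repMat k θ, ?_, ?_⟩
  · intro b
    rw [isUnit_repMat]
    exact ⟨fun hb => HInd_of_Phi h0 hmono hsub hbig hV hG hspan k hkV hkV' b hb.1, hbij b⟩
  · intro b N hN1 hN2 i j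
    have hb : Function.Bijective (Phi k b) :=
      (isUnit_repMat k θ b).mp ⟨⟨_, N, hN2, hN1⟩, rfl⟩
    have h1 := entry hr h0 hmono hsub hbig hV hG hspan k hk hkV hkV' b hb j i
      (fun l => (N * repMat k θ) l j) (fun x => repMat_normal k θ b N hN1 hN2 j x)
    rcases h1 with h1 | h1
    · exact Or.inl h1
    · exact Or.inr ((Module.End.isUnit_iff _).mpr h1)

/-- The polymatroid used. -/
def hfun : Finset (Fin 4) → ℕ := fun S =>
  if S.card = 0 then 0 else if S.card = 1 then 10 else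
    if S.card = 2 then (if S = {2, 3} then 19 else 16) else if S.card = 3 then 21 else 22

theorem hfun_mono : ∀ S T : Finset (Fin 4), S ⊂ T → hfun S < hfun T := by
  decide

theorem hfun_strict : ∀ S T : Finset (Fin 4), ¬ S ⊆ T → ¬ T ⊆ S →
    hfun (S ∪ T) + hfun (S ∩ T) < hfun S + hfun T := by
  decide

theorem hfun_big : ∀ t : Fin 4,
    (Finset.univ.filter (fun e : Fin 4 × Fin 10 => e.1 = t)).card = hfun {t} := by
  decide

theorem not_all (P : Prop) (hP : (∀ (R : Type) [Ring R] [Nontrivial R] (G : Subgroup Rˣ), (-1 : Rˣ) ∈ G →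
    ∀ (E : Type) [Fintype E] (r : ℕ) (A : Matrix (Fin r) E R),
      (∀ (b : Fin r ↪ E) (N : Matrix (Fin r) (Fin r) R),
          N * A.submatrix id ⇑b = 1 → A.submatrix id ⇑b * N = 1 →
          ∀ (i : Fin r) (j : E), (N * A) i j = 0 ∨ ∃ g ∈ G, (g : R) = (N * A) i j) →
      ∀ M : Matroid E, M.E = Set.univ →
        (∀ B : Set E, M.IsBase B ↔
            ∃ b : Fin r ↪ E, Set.range ⇑b = B ∧ IsUnit (A.submatrix id ⇑b)) →
        ∀ P Q S T : Set E,
          M.eRk P + M.eRk Q + M.eRk (P ∪ Q ∪ S) + M.eRk (P ∪ Q ∪ T) + M.eRk (S ∪ T) ≤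
            M.eRk (P ∪ Q) + M.eRk (P ∪ S) + M.eRk (P ∪ T) + M.eRk (Q ∪ S) + M.eRk (Q ∪ T))) : P := by
  exfalso
  have h0 : hfun ∅ = 0 := rfl
  have hsub := sub_of_strict (h := hfun) hfun_strict
  have huniv : 22 = hfun Finset.univ := rfl
  obtain ⟨A, hA1, hA2⟩ := representation (E := Fin 4 × Fin 10) Prod.fst hfun h0 hfun_mono
    hfun_strict hfun_big 22 huniv
  have : Nontrivial W := inferInstance
  have hnt : Nontrivial (Module.End ℚ W) := inferInstance
  let M : Matroid (Fin 4 × Fin 10) := expansion (ty := Prod.fst) h0 hsub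
  have key := hP (Module.End ℚ W) ⊤ (Subgroup.mem_top _) (Fin 4 × Fin 10) 22 A
    (by
      intro b N hN1 hN2 i j
      rcases hA2 b N hN1 hN2 i j with h1 | ⟨u, hu⟩
      · exact Or.inl h1
      · exact Or.inr ⟨u, Subgroup.mem_top _, hu⟩) M rfl
    (by
      intro B
      obtain ⟨N, rfl⟩ : ∃ N : Finset (Fin 4 × Fin 10), (N : Set (Fin 4 × Fin 10)) = B :=
        ⟨B.toFinite.toFinset, B.toFinite.coe_toFinset⟩
      rw [expansion_isBase h0 hfun_mono hsub hfun_big]
      constructor
      · rintro ⟨hN, hcard⟩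
        rw [← huniv] at hcard
        let b : Fin 22 ↪ Fin 4 × Fin 10 := (N.equivFinOfCardEq hcard).symm.toEmbedding.trans
          (Function.Embedding.subtype _)
        have hb : Finset.univ.map b = N := by
          ext e
          rw [Finset.mem_map]
          constructor
          · rintro ⟨j, -, hj⟩
            rw [← hj]
            exact ((N.equivFinOfCardEq hcard).symm j).2
          · intro he
            refine ⟨N.equivFinOfCardEq hcard ⟨e, he⟩, Finset.mem_univ _, ?_⟩
            show (((N.equivFinOfCardEq hcard).symm (N.equivFinOfCardEq hcard ⟨e, he⟩)) :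
              Fin 4 × Fin 10) = e
            rw [Equiv.symm_apply_apply]
        refine ⟨b, ?_, ?_⟩
        · rw [← hb, Finset.coe_map, Finset.coe_univ, Set.image_univ]
        · rw [hA1, hb]
          exact hN
      · rintro ⟨b, hb1, hb2⟩
        have hb : Finset.univ.map b = N := by
          apply Finset.coe_injective
          rw [← hb1, Finset.coe_map, Finset.coe_univ, Set.image_univ]
        rw [hA1, hb] at hb2
        refine ⟨hb2, ?_⟩
        rw [← hb, Finset.card_map, Finset.card_univ, Fintype.card_fin, huniv])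
  have hF : ∀ S : Finset (Fin 4), M.eRk {e : Fin 4 × Fin 10 | e.1 ∈ S} = (hfun S : ℕ∞) :=
    fun S => expansion_eRk h0 hfun_mono hsub hfun_big S
  have hU : ∀ S T : Finset (Fin 4), {e : Fin 4 × Fin 10 | e.1 ∈ S} ∪ {e : Fin 4 × Fin 10 | e.1 ∈ T} =
      {e : Fin 4 × Fin 10 | e.1 ∈ S ∪ T} := by
    intro S T
    ext e
    simp
  have h1 := key {e | e.1 ∈ ({0} : Finset (Fin 4))} {e | e.1 ∈ ({1} : Finset (Fin 4))}
    {e | e.1 ∈ ({2} : Finset (Fin 4))} {e | e.1 ∈ ({3} : Finset (Fin 4))}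
  simp only [hU, hF] at h1
  have h2 : hfun {0} + hfun {1} + hfun ({0} ∪ {1} ∪ {2}) + hfun ({0} ∪ {1} ∪ {3}) +
      hfun ({2} ∪ {3}) ≤ hfun ({0} ∪ {1}) + hfun ({0} ∪ {2}) + hfun ({0} ∪ {3}) +
      hfun ({1} ∪ {2}) + hfun ({1} ∪ {3}) := by exact_mod_cast h1
  revert h2
  decide

end Pool.Agent.Lib.MP_dbb207_co
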