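import Pool.Agent.Lib.MP_dbb207_co.Approx

set_option autoImplicit false

namespace Pool.Agent.Lib.MP_dbb207_co

variable {E : Type} [Fintype E] [DecidableEq E]

/-- Approximations to the family of subspaces. -/
structure Approx (ty : E → Fin 4) (h : Finset (Fin 4) → ℕ) where
  X : E → Submodule ℚ W
  le_amb : ∀ e, X e ≤ amb {ty e}
  bdd : ∃ m, ∀ e, X e ≤ low m
  good : Good ty h X

variable {ty : E → Fin 4} {h : Finset (Fin 4) → ℕ}

instance : Preorder (Approx ty h) where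
  le a b := ∀ e, a.X e ≤ b.X e
  le_refl a e := le_rfl
  le_trans a b c hab hbc e := (hab e).trans (hbc e)

/-- The starting point. -/
noncomputable def Approx.bot : Approx ty h where
  X := fun _ => ⊥
  le_amb := fun _ => bot_le
  bdd := ⟨0, fun _ => bot_le⟩
  good := fun _ _ _ _ hx _ e he => (Submodule.mem_bot ℚ).mp (hx e he)

theorem limit
    (hmono : ∀ S T : Finset (Fin 4), S ⊂ T → h S < h T)
    (hstrict : ∀ S T : Finset (Fin 4), ¬ S ⊆ T → ¬ T ⊆ S → h (S ∪ T) + h (S ∩ T) < h S + h T) :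
    ∃ V : E → Submodule ℚ W, (∀ e, V e ≤ amb {ty e}) ∧ Good ty h V ∧
      (∀ N : Finset E, (∀ S, cnt ty N S ≤ h S) → N.card = h Finset.univ → ∀ w : W,
        ∃ x : E → W, (∀ e ∈ N, x e ∈ V e) ∧ ∑ e ∈ N, x e = w) ∧
      (∀ e k, ∃ v ∈ V e, v ∉ low k) := by
  classical
  let 𝒟 : (Finset E × W) ⊕ (E × ℕ) → Order.Cofinal (Approx ty h) := fun t =>
    match t with
    | Sum.inl (N, w) =>
      { carrier := {a | (∀ S, cnt ty N S ≤ h S) → N.card = h Finset.univ →
          ∃ x : E → W, (∀ e ∈ N, x e ∈ a.X e) ∧ ∑ e ∈ N, x e = w}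
        isCofinal := by
          intro a
          by_cases h1 : (∀ S, cnt ty N S ≤ h S) ∧ N.card = h Finset.univ
          · obtain ⟨m, hm⟩ := a.bdd
            obtain ⟨X', hX1, hX2, hX3, hX4, hX5⟩ := step hmono hstrict a.le_amb hm a.good h1.1 h1.2 w
            exact ⟨⟨X', hX2, hX3, hX4⟩, fun _ _ => hX5, hX1⟩
          · exact ⟨a, fun h2 h3 => absurd ⟨h2, h3⟩ h1, le_rfl⟩ }
    | Sum.inr (e, k) =>
      { carrier := {a | ∃ v ∈ a.X e, v ∉ low k}
        isCofinal := by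
          intro a
          obtain ⟨m, hm⟩ := a.bdd
          obtain ⟨X', hX1, hX2, hX3, hX4, hX5⟩ := step_grow a.le_amb hm a.good e k
          exact ⟨⟨X', hX2, hX3, hX4⟩, hX5, hX1⟩ }
  have : Encodable ((Finset E × W) ⊕ (E × ℕ)) := Encodable.ofCountable _
  let s : ℕ → Approx ty h := Order.sequenceOfCofinals Approx.bot 𝒟
  have hs : Monotone s := Order.sequenceOfCofinals.monotone _ _
  let V : E → Submodule ℚ W := fun e => ⨆ n, (s n).X e
  have hV : ∀ e v, v ∈ V e ↔ ∃ n, v ∈ (s n).X e := by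
    intro e v
    simp only [V]
    exact Submodule.mem_iSup_of_directed _ (directed_of_isDirected_le (fun i j hij => hs hij e))
  refine ⟨V, ?_, ?_, ?_, ?_⟩
  · intro e
    exact iSup_le (fun n => (s n).le_amb e)
  · intro T N hI x hx hsum
    have h1 : ∀ e, ∃ n, e ∈ N → x e ∈ (s n).X e := by
      intro e
      by_cases he : e ∈ N
      · obtain ⟨n, hn⟩ := (hV e (x e)).mp (hx e he)
        exact ⟨n, fun _ => hn⟩
      · exact ⟨0, fun hc => absurd hc he⟩
    choose n hn using h1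
    apply (s (Finset.univ.sup n)).good T N hI x _ hsum
    intro e he
    exact hs (Finset.le_sup (Finset.mem_univ e)) e (hn e he)
  · intro N hN hcard w
    have h1 := Order.sequenceOfCofinals.encode_mem Approx.bot 𝒟 (Sum.inl (N, w))
    obtain ⟨x, hx1, hx2⟩ := h1 hN hcard
    exact ⟨x, fun e he => (hV e _).mpr ⟨_, hx1 e he⟩, hx2⟩
  · intro e k
    have h1 := Order.sequenceOfCofinals.encode_mem Approx.bot 𝒟 (Sum.inr (e, k))
    obtain ⟨v, hv1, hv2⟩ := h1
    exact ⟨v, (hV e _).mpr ⟨_, hv1⟩, hv2⟩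

end Pool.Agent.Lib.MP_dbb207_co
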