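import Pool.Agent.Lib.MP_dbb207_co.Rep

set_option autoImplicit false
set_option linter.unusedSectionVars false

namespace Pool.Agent.Lib.MP_dbb207_co

variable {E : Type} [Fintype E] [DecidableEq E]
variable {ty : E → Fin 4} {h : Finset (Fin 4) → ℕ}

theorem Phi_update {r : ℕ} (k : E → (W →ₗ[ℚ] W)) (b : Fin r ↪ E) (b' : Fin r → E) (i : Fin r) (e : E)
    (hb'i : b' i = e) (hb' : ∀ j, j ≠ i → b' j = b j) (u : Fin r → W) :
    Phi k b' u = k e (u i) + Phi k b (Function.update u i 0) := by
  rw [Phi_apply, Phi_apply, ← Finset.add_sum_erase _ _ (Finset.mem_univ i),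
    ← Finset.add_sum_erase Finset.univ (fun j => k (b j) (Function.update u i 0 j))
      (Finset.mem_univ i)]
  simp only [Function.update_self, map_zero, zero_add, hb'i]
  congr 1
  apply Finset.sum_congr rfl
  intro j hj
  have hji := (Finset.mem_erase.mp hj).1
  rw [hb' j hji, Function.update_of_ne hji]

/-- The entries of the normal forms. -/
theorem entry {r : ℕ} (hr : r = h Finset.univ) (h0 : h ∅ = 0)
    (hmono : ∀ S T : Finset (Fin 4), S ⊂ T → h S < h T)
    (hsub : ∀ S T : Finset (Fin 4), h (S ∪ T) + h (S ∩ T) ≤ h S + h T)
    (hbig : ∀ t : Fin 4, (Finset.univ.filter (fun e : E => ty e = t)).card = h {t})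
    {V : E → Submodule ℚ W} (hV : ∀ e, V e ≤ amb {ty e}) (hG : Good ty h V)
    (hspan : ∀ N : Finset E, (∀ S, cnt ty N S ≤ h S) → N.card = h Finset.univ → ∀ w : W,
        ∃ x : E → W, (∀ e ∈ N, x e ∈ V e) ∧ ∑ e ∈ N, x e = w)
    (k : E → (W →ₗ[ℚ] W)) (hk : ∀ e, Function.Injective (k e))
    (hkV : ∀ e x, k e x ∈ V e) (hkV' : ∀ e, ∀ v ∈ V e, ∃ x, k e x = v) (b : Fin r ↪ E)
    (hb : Function.Bijective (Phi k b)) (e : E) (i : Fin r) (f : Fin r → (W →ₗ[ℚ] W))
    (hf : ∀ x, Phi k b (fun j => f j x) = k e x) :
    f i = 0 ∨ Function.Bijective (f i) := by
  classical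
  have hB : HInd ty h (Finset.univ.map b) :=
    HInd_of_Phi h0 hmono hsub hbig hV hG hspan k hkV hkV' b hb.1
  by_cases heB : ∃ j, j ≠ i ∧ b j = e
  · -- e is another element of the basis
    left
    obtain ⟨j, hji, hj⟩ := heB
    apply LinearMap.ext
    intro x
    have h1 : (fun j => f j x) = Pi.single j x := by
      apply hb.1
      rw [hf, Phi_single, hj]
    have h2 := congrFun h1 i
    simpa [Pi.single_eq_of_ne (Ne.symm hji)] using h2
  · push Not at heB
    -- the exchanged family
    let b' : Fin r ↪ E := ⟨Function.update b i e, by
      intro j1 j2 hj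
      by_cases h1 : j1 = i
      · by_cases h2 : j2 = i
        · rw [h1, h2]
        · rw [h1, Function.update_self, Function.update_of_ne h2] at hj
          exact absurd hj.symm (heB j2 h2)
      · by_cases h2 : j2 = i
        · rw [h2, Function.update_self, Function.update_of_ne h1] at hj
          exact absurd hj (heB j1 h1)
        · rw [Function.update_of_ne h1, Function.update_of_ne h2] at hj
          exact b.injective hj⟩
    have hb'i : b' i = e := Function.update_self i e b
    have hb'j : ∀ j, j ≠ i → b' j = b j := fun j hj => Function.update_of_ne hj e b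
    have hcard : (Finset.univ.map b').card = h Finset.univ := by
      rw [Finset.card_map, Finset.card_univ, Fintype.card_fin, hr]
    by_cases hB' : HInd ty h (Finset.univ.map b')
    · right
      have hinj : Function.Injective (Phi k b') := Phi_inj h0 hG k hk hkV b' hB'
      have hsurj : Function.Surjective (Phi k b') :=
        Phi_surj k hkV' b' (hspan _ hB' hcard)
      constructor
      · rw [injective_iff_map_eq_zero]
        intro x hx
        have h1 : Phi k b' (Pi.single i x) = Phi k b' (Function.update (fun j => f j x) i 0) := by
          rw [Phi_single, hb'i, Phi_update k b b' i e hb'i hb'j]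
          simp only [Function.update_self, map_zero, zero_add, Function.update_idem]
          rw [← hf x]
          congr 1
          funext j
          by_cases hj : j = i
          · rw [hj, Function.update_self, hx]
          · rw [Function.update_of_ne hj]
        have h2 := congrFun (hinj h1) i
        simpa using h2
      · intro z
        obtain ⟨u, hu⟩ := hsurj (k (b i) z)
        rw [Phi_update k b b' i e hb'i hb'j, ← hf (u i), ← map_add, ← Phi_single k b i z] at hu
        have h2 := congrFun (hb.1 hu) i
        refine ⟨u i, ?_⟩
        simpa using h2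
    · left
      -- e is not in the basis
      have hei : b i ≠ e := by
        intro hc
        apply hB'
        have h1 : (b' : Fin r → E) = b := by
          funext j
          by_cases hj : j = i
          · rw [hj, hb'i, hc]
          · exact hb'j j hj
        have h2 : b' = b := DFunLike.coe_injective h1
        rw [h2]
        exact hB
      have heB2 : ∀ j, b j ≠ e := by
        intro j
        by_cases hj : j = i
        · rw [hj]; exact hei
        · exact heB j hj
      set N := (Finset.univ.erase i).map b with hN
      have hNB : N ⊆ Finset.univ.map b := Finset.map_subset_map.mpr (Finset.erase_subset _ _)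
      have hNI : HInd ty h N := hB.subset hNB
      have heN : e ∉ N := by
        intro hc
        rw [hN, Finset.mem_map] at hc
        obtain ⟨j, -, hj⟩ := hc
        exact heB2 j hj
      have hins : Finset.univ.map b' = insert e N := by
        ext a
        simp only [Finset.mem_map, Finset.mem_univ, true_and, Finset.mem_insert, hN,
          Finset.mem_erase]
        constructor
        · rintro ⟨j, hj⟩
          by_cases hji : j = i
          · left
            rw [← hj, hji, hb'i]
          · right
            exact ⟨j, ⟨hji, trivial⟩, by rw [← hj, hb'j j hji]⟩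
        · rintro (ha | ⟨j, hj, hja⟩)
          · exact ⟨i, by rw [hb'i, ha]⟩
          · exact ⟨j, by rw [hb'j j hj.1, hja]⟩
      rw [hins] at hB'
      obtain ⟨S, heS, hS⟩ := hNI.exists_tight heN hB'
      have hS2 : cnt ty (Finset.univ.map b) S = h S :=
        le_antisymm (hB S) (hS ▸ cnt_mono hNB S)
      have hiS : ty (b i) ∉ S := by
        intro hc
        have h1 : b i ∉ N := by
          intro hc'
          rw [hN, Finset.mem_map] at hc'
          obtain ⟨j, hj1, hj2⟩ := hc'
          have h2 := b.injective hj2
          rw [h2] at hj1
          exact absurd rfl (Finset.mem_erase.mp hj1).1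
        have h2 := cnt_insert (ty := ty) h1 S
        rw [if_pos hc] at h2
        have h3 : insert (b i) N ⊆ Finset.univ.map b := by
          apply Finset.insert_subset _ hNB
          exact Finset.mem_map_of_mem b (Finset.mem_univ i)
        have h4 := cnt_mono (ty := ty) h3 S
        omega
      apply LinearMap.ext
      intro x
      have hx0 : ∃ g : E → W, ∀ j, g (b j) = f j x := by
        refine ⟨Function.extend b (fun j => f j x) 0, fun j => ?_⟩
        exact b.injective.extend_apply _ _ j
      obtain ⟨g, hg⟩ := hx0
      have h5 := span_tight hV hG hB hS2 heS (hkV e x) (x := fun n => k n (g n))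
        (fun n _ => hkV n _) (by
          rw [← Phi_eq_sum k b g]
          simp only [hg]
          exact hf x) (b i) (Finset.mem_map_of_mem b (Finset.mem_univ i)) hiS
      simp only [hg] at h5
      exact hk (b i) (by rw [h5]; simp)

end Pool.Agent.Lib.MP_dbb207_co
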