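import Pool.Agent.Lib.MP_dbb207_co.Limit
import Pool.Agent.Lib.MP_dbb207_co.Expansion

set_option autoImplicit false
set_option linter.unusedSectionVars false

namespace Pool.Agent.Lib.MP_dbb207_co

section linear

variable {E : Type} {r : ℕ}

/-- The sum map attached to a list of elements. -/
noncomputable def Phi (k : E → (W →ₗ[ℚ] W)) (b : Fin r → E) : (Fin r → W) →ₗ[ℚ] W :=
  ∑ j, (k (b j)) ∘ₗ LinearMap.proj j

theorem Phi_apply (k : E → (W →ₗ[ℚ] W)) (b : Fin r → E) (x : Fin r → W) :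
    Phi k b x = ∑ j, k (b j) (x j) := by
  unfold Phi
  simp

theorem Phi_single (k : E → (W →ₗ[ℚ] W)) (b : Fin r → E) (j : Fin r) (x : W) :
    Phi k b (Pi.single j x) = k (b j) x := by
  rw [Phi_apply, Finset.sum_eq_single j]
  · simp
  · intro i _ hij
    simp [Pi.single_eq_of_ne hij]
  · simp

/-- The representing matrix. -/
noncomputable def repMat (k : E → (W →ₗ[ℚ] W)) (θ : W ≃ₗ[ℚ] (Fin r → W)) :
    Matrix (Fin r) E (Module.End ℚ W) :=
  Matrix.of fun i e => LinearMap.proj i ∘ₗ θ.toLinearMap ∘ₗ k e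

theorem repMat_apply (k : E → (W →ₗ[ℚ] W)) (θ : W ≃ₗ[ℚ] (Fin r → W)) (i : Fin r) (e : E) (x : W) :
    repMat k θ i e x = θ (k e x) i := rfl

theorem repMat_equiv (k : E → (W →ₗ[ℚ] W)) (θ : W ≃ₗ[ℚ] (Fin r → W)) (b : Fin r → E) :
    endVecRingEquivMatrixEnd (Fin r) ℚ W (θ.toLinearMap ∘ₗ Phi k b) =
      (repMat k θ).submatrix id b := by
  ext i j : 1
  apply LinearMap.ext
  intro x
  show θ (Phi k b (Pi.single j x)) i = θ (k (b j) x) i
  rw [Phi_single]

theorem isUnit_repMat (k : E → (W →ₗ[ℚ] W)) (θ : W ≃ₗ[ℚ] (Fin r → W)) (b : Fin r → E) :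
    IsUnit ((repMat k θ).submatrix id b) ↔ Function.Bijective (Phi k b) := by
  rw [← repMat_equiv, MulEquiv.isUnit_map, Module.End.isUnit_iff]
  rw [LinearMap.coe_comp]
  exact θ.bijective.of_comp_iff' (Phi k b)

theorem repMat_normal (k : E → (W →ₗ[ℚ] W)) (θ : W ≃ₗ[ℚ] (Fin r → W)) (b : Fin r → E)
    (N : Matrix (Fin r) (Fin r) (Module.End ℚ W))
    (hN1 : N * (repMat k θ).submatrix id b = 1)
    (hN2 : (repMat k θ).submatrix id b * N = 1) (e : E) (x : W) :
    Phi k b (fun i => (N * repMat k θ) i e x) = k e x := by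
  have hbij : Function.Bijective (Phi k b) :=
    (isUnit_repMat k θ b).mp ⟨⟨_, N, hN2, hN1⟩, rfl⟩
  obtain ⟨y, hy⟩ := hbij.2 (k e x)
  set n : Module.End ℚ (Fin r → W) := (endVecRingEquivMatrixEnd (Fin r) ℚ W).symm N with hn
  have h1 : n * (θ.toLinearMap ∘ₗ Phi k b) = 1 := by
    apply (endVecRingEquivMatrixEnd (Fin r) ℚ W).injective
    rw [map_mul, map_one, repMat_equiv, hn, RingEquiv.apply_symm_apply, hN1]
  have h2 : ∀ i, (N * repMat k θ) i e x = y i := by
    intro i
    have h3 : (N * repMat k θ) i e x = n (θ (k e x)) i := by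
      rw [Matrix.mul_apply, LinearMap.sum_apply]
      rfl
    rw [h3, ← hy]
    have h4 := LinearMap.congr_fun h1 y
    exact congrFun h4 i
  rw [show (fun i => (N * repMat k θ) i e x) = y from funext h2, hy]

end linear

section rep

variable {E : Type} [Fintype E] [DecidableEq E]
variable {ty : E → Fin 4} {h : Finset (Fin 4) → ℕ}

theorem good_indep (h0 : h ∅ = 0) {V : E → Submodule ℚ W} (hG : Good ty h V) {N : Finset E}
    (hN : HInd ty h N) {x : E → W} (hx : ∀ e ∈ N, x e ∈ V e) (hsum : ∑ e ∈ N, x e = 0) :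
    ∀ e ∈ N, x e = 0 := by
  apply hG ∅ N _ x hx
  · rw [hsum]
    exact Submodule.zero_mem _
  · intro R
    rw [h0, Finset.union_empty]
    exact hN R

theorem span_tight {V : E → Submodule ℚ W} (hV : ∀ e, V e ≤ amb {ty e}) (hG : Good ty h V)
    {N : Finset E} (hN : HInd ty h N) {S : Finset (Fin 4)} (hS : cnt ty N S = h S)
    {e : E} (he : ty e ∈ S) {v : W} (hv : v ∈ V e) {x : E → W} (hx : ∀ n ∈ N, x n ∈ V n)
    (hsum : ∑ n ∈ N, x n = v) : ∀ n ∈ N, ty n ∉ S → x n = 0 := by
  classical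
  set N3 := N.filter (fun n => ¬ ty n ∈ S) with hN3
  have hI : IndepOver ty h S N3 := by
    intro R
    have h1 : cnt ty N3 R + cnt ty N S ≤ cnt ty N (R ∪ S) := by
      unfold cnt
      rw [← Finset.card_union_of_disjoint]
      · apply Finset.card_le_card
        intro a ha
        rw [Finset.mem_union] at ha
        rcases ha with ha | ha
        · rw [Finset.mem_filter, hN3, Finset.mem_filter] at ha
          exact Finset.mem_filter.mpr ⟨ha.1.1, Finset.mem_union_left _ ha.2⟩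
        · rw [Finset.mem_filter] at ha
          exact Finset.mem_filter.mpr ⟨ha.1, Finset.mem_union_right _ ha.2⟩
      · rw [Finset.disjoint_left]
        intro a ha1 ha2
        rw [Finset.mem_filter, hN3, Finset.mem_filter] at ha1
        rw [Finset.mem_filter] at ha2
        exact ha1.1.2 ha2.2
    have h2 := hN (R ∪ S)
    omega
  have hsplit : ∑ n ∈ N, x n = ∑ n ∈ N.filter (fun n => ty n ∈ S), x n + ∑ n ∈ N3, x n :=
    (Finset.sum_filter_add_sum_filter_not N _ _).symm
  have h3 : ∑ n ∈ N3, x n ∈ amb S := by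
    have h4 : ∑ n ∈ N3, x n = v - ∑ n ∈ N.filter (fun n => ty n ∈ S), x n := by
      rw [← hsum, hsplit]; abel
    rw [h4]
    apply Submodule.sub_mem
    · exact amb_mono (by simpa using he) (hV e hv)
    · apply Submodule.sum_mem
      intro n hn
      rw [Finset.mem_filter] at hn
      exact amb_mono (by simpa using hn.2) (hV n (hx n hn.1))
  intro n hn hnS
  apply hG S N3 hI x _ h3 n (Finset.mem_filter.mpr ⟨hn, hnS⟩)
  intro a ha
  rw [hN3, Finset.mem_filter] at ha
  exact hx a ha.1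

theorem Phi_eq_sum {r : ℕ} (k : E → (W →ₗ[ℚ] W)) (b : Fin r ↪ E) (x : E → W) :
    Phi k b (fun j => x (b j)) = ∑ e ∈ Finset.univ.map b, k e (x e) := by
  rw [Phi_apply, Finset.sum_map]

theorem Phi_inj {r : ℕ} (h0 : h ∅ = 0) {V : E → Submodule ℚ W}
    (hG : Good ty h V) (k : E → (W →ₗ[ℚ] W)) (hk : ∀ e, Function.Injective (k e))
    (hkV : ∀ e x, k e x ∈ V e) (b : Fin r ↪ E) (hb : HInd ty h (Finset.univ.map b)) :
    Function.Injective (Phi k b) := by
  rw [injective_iff_map_eq_zero]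
  intro x hx
  have h1 : (fun j => Function.extend b x 0 (b j)) = x := by
    funext j
    exact b.injective.extend_apply x 0 j
  rw [← h1, Phi_eq_sum] at hx
  have h2 := good_indep h0 hG hb (x := fun e => k e (Function.extend b x 0 e))
    (fun e _ => hkV e _) hx
  funext j
  have h3 := h2 (b j) (Finset.mem_map_of_mem b (Finset.mem_univ j))
  simp only [b.injective.extend_apply] at h3
  exact (hk (b j)) (by rw [h3]; simp)

theorem Phi_surj {r : ℕ} {V : E → Submodule ℚ W}
    (k : E → (W →ₗ[ℚ] W))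
    (hkV' : ∀ e, ∀ v ∈ V e, ∃ x, k e x = v) (b : Fin r ↪ E)
    (hspan : ∀ w : W, ∃ x : E → W, (∀ e ∈ Finset.univ.map b, x e ∈ V e) ∧
      ∑ e ∈ Finset.univ.map b, x e = w) :
    Function.Surjective (Phi k b) := by
  intro w
  obtain ⟨x, hx, hsum⟩ := hspan w
  have h1 : ∀ j, ∃ y, k (b j) y = x (b j) := fun j =>
    hkV' _ _ (hx (b j) (Finset.mem_map_of_mem b (Finset.mem_univ j)))
  choose y hy using h1
  refine ⟨y, ?_⟩
  rw [Phi_apply, ← hsum, Finset.sum_map]
  exact Finset.sum_congr rfl (fun j _ => hy j)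

theorem HInd_of_Phi {r : ℕ} (h0 : h ∅ = 0)
    (hmono : ∀ S T : Finset (Fin 4), S ⊂ T → h S < h T)
    (hsub : ∀ S T : Finset (Fin 4), h (S ∪ T) + h (S ∩ T) ≤ h S + h T)
    (hbig : ∀ t : Fin 4, (Finset.univ.filter (fun e : E => ty e = t)).card = h {t})
    {V : E → Submodule ℚ W} (hV : ∀ e, V e ≤ amb {ty e}) (hG : Good ty h V)
    (hspan : ∀ N : Finset E, (∀ S, cnt ty N S ≤ h S) → N.card = h Finset.univ → ∀ w : W,
        ∃ x : E → W, (∀ e ∈ N, x e ∈ V e) ∧ ∑ e ∈ N, x e = w)
    (k : E → (W →ₗ[ℚ] W))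
    (hkV : ∀ e x, k e x ∈ V e) (hkV' : ∀ e, ∀ v ∈ V e, ∃ x, k e x = v) (b : Fin r ↪ E)
    (hb : Function.Injective (Phi k b)) : HInd ty h (Finset.univ.map b) := by
  classical
  by_contra hne
  set B := Finset.univ.map b with hB
  -- a maximal independent subset
  obtain ⟨N, hNmem, hNmax⟩ := Finset.exists_max_image
    (Finset.univ.filter (fun N : Finset E => N ⊆ B ∧ HInd ty h N)) (fun N => N.card)
    ⟨∅, Finset.mem_filter.mpr ⟨Finset.mem_univ _, Finset.empty_subset _, HInd.empty⟩⟩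
  obtain ⟨hNB, hN⟩ := (Finset.mem_filter.mp hNmem).2
  have hex : ∃ e ∈ B, e ∉ N := by
    by_contra hc
    push Not at hc
    exact hne (hN.subset hc)
  obtain ⟨e, heB, heN⟩ := hex
  have hins : ¬ HInd ty h (insert e N) := by
    intro hc
    have h1 := hNmax (insert e N) (Finset.mem_filter.mpr ⟨Finset.mem_univ _,
      Finset.insert_subset heB hNB, hc⟩)
    rw [Finset.card_insert_of_notMem heN] at h1
    omega
  obtain ⟨S, heS, hS⟩ := hN.exists_tight heN hins
  obtain ⟨N', hNN', hN', -, hcard⟩ := hN.extend h0 hmono hsub hbig Finset.univ (by simp)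
  have hS' : cnt ty N' S = h S := le_antisymm (hN' S) (hS ▸ cnt_mono hNN' S)
  have hfil : N.filter (fun n => ty n ∈ S) = N'.filter (fun n => ty n ∈ S) := by
    apply Finset.eq_of_subset_of_card_le (Finset.filter_subset_filter _ hNN')
    have h1 : (N'.filter (fun n => ty n ∈ S)).card = h S := hS'
    have h2 : (N.filter (fun n => ty n ∈ S)).card = h S := hS
    rw [h1, h2]
  have hw0 : ∃ w0 : W, w0 ≠ 0 := ⟨Finsupp.single (0, 0, 0) 1, by simp⟩
  obtain ⟨w0, hw0⟩ := hw0
  obtain ⟨x, hx, hsum⟩ := hspan N' hN' hcard (k e w0)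
  have hz := span_tight hV hG hN' hS' heS (hkV e w0) hx hsum
  have hsum2 : ∑ n ∈ N.filter (fun n => ty n ∈ S), x n = k e w0 := by
    rw [hfil, ← hsum]
    apply Finset.sum_subset (Finset.filter_subset _ _)
    intro n hn hn'
    apply hz n hn
    intro hc
    exact hn' (Finset.mem_filter.mpr ⟨hn, hc⟩)
  have hy : ∀ n, ∃ y, n ∈ N' → k n y = x n := by
    intro n
    by_cases hn : n ∈ N'
    · obtain ⟨y, hy⟩ := hkV' n _ (hx n hn)
      exact ⟨y, fun _ => hy⟩
    · exact ⟨0, fun hc => absurd hc hn⟩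
  choose y hy using hy
  let z : E → W := fun n => if n = e then w0 else if n ∈ N.filter (fun n => ty n ∈ S) then - y n else 0
  have hzsum : ∑ n ∈ B, k n (z n) = 0 := by
    rw [← Finset.add_sum_erase _ _ heB]
    have h1 : k e (z e) = k e w0 := by simp [z]
    have h2 : ∑ n ∈ B.erase e, k n (z n) = - ∑ n ∈ N.filter (fun n => ty n ∈ S), x n := by
      rw [← Finset.sum_neg_distrib]
      symm
      apply Finset.sum_subset_zero_on_sdiff
      · intro n hn
        rw [Finset.mem_filter] at hn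
        exact Finset.mem_erase.mpr ⟨fun hc => heN (hc ▸ hn.1), hNB hn.1⟩
      · intro n hn
        rw [Finset.mem_sdiff, Finset.mem_erase] at hn
        simp only [z, if_neg hn.1.1, if_neg hn.2, map_zero]
      · intro n hn
        have hn2 := Finset.mem_filter.mp hn
        have hne' : n ≠ e := fun hc => heN (hc ▸ hn2.1)
        simp only [z, if_neg hne', if_pos hn, map_neg]
        rw [hy n (hNN' hn2.1)]
    rw [h1, h2, hsum2, add_neg_cancel]
  rw [hB, ← Phi_eq_sum k b z] at hzsum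
  have h3 := (injective_iff_map_eq_zero _).mp hb _ hzsum
  rw [hB, Finset.mem_map] at heB
  obtain ⟨j, -, hj⟩ := heB
  have h4 := congrFun h3 j
  simp only [hj, z, if_true, Pi.zero_apply] at h4
  exact hw0 h4

end rep

end Pool.Agent.Lib.MP_dbb207_co
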